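import Pool.Agent.Lib.MP_37af32_pr.Main

/-! An example over every alphabet with at least two letters: the left ends of the runs of the
letter one move like coalescing random walks. -/

set_option autoImplicit false

namespace Pool.Agent.Lib.MP_37af32_pr.Bin

open MeasureTheory Filter Topology Finset
open scoped ENNReal Classical

variable {d q : ℕ}

/-- a neighbourhood with a direction of motion -/
structure Nb (d : ℕ) where
  N : Finset (Fin d → ℤ)
  v : Fin d → ℤ
  ne : v ≠ 0
  m0 : 0 ∈ N
  m1 : v ∈ N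
  m2 : -v ∈ N

variable {B : Nb d}

/-- the `n`-th site on the line through `p` -/
def pv (B : Nb d) (p : Fin d → ℤ) (n : ℕ) : Fin d → ℤ := p + (n : ℤ) • B.v

theorem pv_zero (p : Fin d → ℤ) : pv B p 0 = p := by simp [pv]

theorem pv_succ (p : Fin d → ℤ) (n : ℕ) : pv B p (n + 1) = pv B p n + B.v := by
  simp only [pv]; push_cast; rw [add_smul, one_smul, add_assoc]

theorem pv_succ' (p : Fin d → ℤ) (n : ℕ) : pv B p (n + 1) = pv B (p + B.v) n := by
  simp only [pv]; push_cast; rw [add_smul, one_smul]; abel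

/-- a fair coin on the letters zero and one -/
noncomputable def cn (q : ℕ) : PMF (Fin (q + 2)) :=
  (PMF.uniformOfFintype Bool).map fun b => if b then 1 else 0

/-- the left end of a run stays, the site before it tosses a coin, the other sites are erased -/
noncomputable def rl (B : Nb d) (q : ℕ) (u : B.N → Fin (q + 2)) : PMF (Fin (q + 2)) :=
  if u ⟨0, B.m0⟩ = 1 ∧ u ⟨-B.v, B.m2⟩ ≠ 1 then PMF.pure 1
  else if u ⟨B.v, B.m1⟩ = 1 ∧ u ⟨0, B.m0⟩ ≠ 1 then cn q else PMF.pure 0

/-- `j` is the left end of a run -/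
def Lf (B : Nb d) (x : Config d (q + 2)) (j : Fin d → ℤ) : Prop := x j = 1 ∧ x (j - B.v) ≠ 1

/-- the law of the new symbol -/
noncomputable def kp (B : Nb d) (x : Config d (q + 2)) (i : Fin d → ℤ) : PMF (Fin (q + 2)) :=
  rl B q fun n : B.N => x (i + n)

theorem kp_eq (x : Config d (q + 2)) (i : Fin d → ℤ) : kp B x i =
    if Lf B x i then PMF.pure 1 else if Lf B x (i + B.v) then cn q else PMF.pure 0 := by
  unfold kp rl Lf
  simp only [add_zero, add_sub_cancel_right, ← sub_eq_add_neg]

theorem kp_coin {x : Config d (q + 2)} {i : Fin d → ℤ} (h : Lf B x (i + B.v)) : kp B x i = cn q := by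
  rw [kp_eq, if_neg, if_pos h]
  exact fun h1 => h.2 (by rw [add_sub_cancel_right]; exact h1.1)

theorem cn_one : (cn q).toMeasure {1} = 2⁻¹ := by
  rw [PMF.toMeasure_apply_singleton _ _ MeasurableSet.of_discrete, cn, PMF.map_apply]
  simp

theorem cn_zero : (cn q).toMeasure {0} = 2⁻¹ := by
  rw [PMF.toMeasure_apply_singleton _ _ MeasurableSet.of_discrete, cn, PMF.map_apply]
  simp

theorem step_eq (x : Config d (q + 2)) :
    step B.N (rl B q) x = Measure.infinitePi fun i => (kp B x i).toMeasure := rfl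

theorem ae_step (x : Config d (q + 2)) : ∀ᵐ y ∂step B.N (rl B q) x, ∀ s,
    (Lf B x s → y s = 1) ∧ (y s = 0 ∨ (y s = 1 ∧ (Lf B x s ∨ Lf B x (s + B.v)))) := by
  rw [step_eq, ae_all_iff]
  intro s
  refine (measurePreserving_eval_infinitePi _ s).quasiMeasurePreserving.ae
    (p := fun a => (Lf B x s → a = 1) ∧ (a = 0 ∨ (a = 1 ∧ (Lf B x s ∨ Lf B x (s + B.v))))) ?_
  rw [ae_iff, PMF.toMeasure_apply_eq_zero_iff _ MeasurableSet.of_discrete, Set.disjoint_left]
  intro a ha hn
  apply hn
  rw [kp_eq] at ha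
  split_ifs at ha with h1 h2
  · have : a = 1 := by simpa using ha
    exact ⟨fun _ => this, Or.inr ⟨this, Or.inl h1⟩⟩
  · refine ⟨fun h => absurd h h1, ?_⟩
    rw [cn, PMF.mem_support_map_iff] at ha
    obtain ⟨b, -, rfl⟩ := ha
    cases b
    · exact Or.inl rfl
    · exact Or.inr ⟨rfl, Or.inr h2⟩
  · exact ⟨fun h => absurd h h1, Or.inl (by simpa using ha)⟩

theorem step_one (x : Config d (q + 2)) (s : Fin d → ℤ) (T : Set (Fin (q + 2))) :
    step B.N (rl B q) x {y | y s ∈ T} = (kp B x s).toMeasure T :=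
  (measurePreserving_eval_infinitePi (fun i => (kp B x i).toMeasure) s).measure_preimage
    MeasurableSet.of_discrete.nullMeasurableSet

theorem step_two (x : Config d (q + 2)) {s s' : Fin d → ℤ} (h : s ≠ s')
    (T T' : Set (Fin (q + 2))) : step B.N (rl B q) x {y | y s ∈ T ∧ y s' ∈ T'} =
      (kp B x s).toMeasure T * (kp B x s').toMeasure T' := by
  have h1 : {y : Config d (q + 2) | y s ∈ T ∧ y s' ∈ T'} =
      Set.pi (({s, s'} : Finset (Fin d → ℤ)) : Set (Fin d → ℤ)) fun i => if i = s then T else T' := by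
    ext y
    simp [h.symm]
  rw [h1, step_eq, Measure.infinitePi_pi _ fun _ _ => MeasurableSet.of_discrete, prod_pair h,
    if_pos rfl, if_neg h.symm]

theorem e_ne (B : Nb d) (a : Fin d → ℤ) (k l : ℤ) (h : a + k • B.v = a + l • B.v) : k = l :=
  smul_left_injective ℤ B.ne (add_left_cancel h)

/-- no left end on the segment -/
def H (B : Nb d) (q : ℕ) (p : Fin d → ℤ) (l : ℕ) : Set (Config d (q + 2)) :=
  {x | ∀ n < l, ¬ Lf B x (pv B p n)}

theorem measurable_H (p : Fin d → ℤ) (l : ℕ) : MeasurableSet (H B q p l) := by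
  unfold H Lf
  measurability

theorem H_succ {p : Fin d → ℤ} {l : ℕ} {x : Config d (q + 2)} :
    x ∈ H B q p (l + 1) ↔ x ∈ H B q p l ∧ ¬ Lf B x (pv B p l) := Nat.forall_lt_succ_right

theorem H_succ' {p : Fin d → ℤ} {l : ℕ} {x : Config d (q + 2)} :
    x ∈ H B q p (l + 1) ↔ ¬ Lf B x p ∧ x ∈ H B q (p + B.v) l := by
  refine Nat.forall_lt_succ_left.trans ?_
  simp only [pv_zero, pv_succ']
  rfl

theorem half (x : Config d (q + 2)) (s : Fin d → ℤ) {a : Fin (q + 2)}
    (ha : (cn q).toMeasure {a} = 2⁻¹) : (kp B x s).toMeasure {b | Lf B x (s + B.v) → b = a} =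
      2⁻¹ * (1 + if Lf B x (s + B.v) then 0 else 1) := by
  by_cases h : Lf B x (s + B.v)
  · rw [kp_coin h, if_pos h, add_zero, mul_one, ← ha]
    congr 1
    ext b
    simp [h]
  · rw [if_neg h, one_add_one_eq_two, ENNReal.inv_mul_cancel (by norm_num) (by norm_num)]
    simp [h]

theorem step_H (B : Nb d) (x : Config d (q + 2)) (p : Fin d → ℤ) (l : ℕ) : 2⁻¹ * 2⁻¹ *
    ((H B q (p + B.v) l).indicator 1 x + (H B q p (l + 1)).indicator 1 x +
      (H B q (p + B.v) (l + 1)).indicator 1 x + (H B q p (l + 2)).indicator 1 x) ≤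
      step B.N (rl B q) x (H B q p (l + 1)) := by
  have e1 : pv B (p + B.v) l = pv B p l + B.v := by rw [← pv_succ', pv_succ]
  simp only [Set.indicator_apply, Pi.one_apply, H_succ' (p := p), H_succ (p := p + B.v), e1]
  by_cases hx : x ∈ H B q (p + B.v) l
  swap
  · simp [hx]
  have hs : p - B.v ≠ pv B p l := fun h => by
    have := e_ne B p (-1) l (by rw [neg_smul, one_smul, ← sub_eq_add_neg, h, pv])
    omega
  have h1 := step_two (B := B) x hs {b | Lf B x (p - B.v + B.v) → b = 1}
    {b | Lf B x (pv B p l + B.v) → b = 0}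
  rw [half x _ cn_one, half x _ cn_zero, sub_add_cancel] at h1
  refine le_trans (le_of_eq ?_) (h1.symm.trans_le (measure_mono_ae ?_))
  · by_cases u : Lf B x p <;> by_cases v : Lf B x (pv B p l + B.v) <;>
      simp only [u, v, hx, not_true, not_false_iff, and_true, and_false, if_true, if_false] <;> ring
  · filter_upwards [ae_step x] with y hy ⟨b1, b2⟩ n hn hL
    rcases (hy (pv B p n)).2 with k | ⟨-, k | k⟩
    · exact absurd (k.symm.trans hL.1) zero_ne_one
    · cases n with
      | zero =>
        rw [pv_zero] at k hL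
        exact hL.2 (b1 k)
      | succ n => exact hx n (by omega) (pv_succ' p n ▸ k)
    · rcases (Nat.lt_succ_iff.1 hn).lt_or_eq with h2 | rfl
      · exact hx n h2 (by rw [← pv_succ', pv_succ]; exact k)
      · exact absurd ((b2 k).symm.trans hL.1) zero_ne_one

theorem Phi_apply (μ : ProbabilityMeasure (Config d (q + 2))) {C : Set (Config d (q + 2))}
    (hC : MeasurableSet C) : (Phi B.N (rl B q) μ : Measure (Config d (q + 2))) C =
      ∫⁻ x, step B.N (rl B q) x C ∂(μ : Measure (Config d (q + 2))) :=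
  Measure.bind_apply hC (measurable_step _ _).aemeasurable

theorem Phi_H (B : Nb d) (μ : ProbabilityMeasure (Config d (q + 2))) (p : Fin d → ℤ) (l : ℕ) :
    ((μ : Measure (Config d (q + 2))).real (H B q (p + B.v) l) +
      (μ : Measure (Config d (q + 2))).real (H B q p (l + 1)) +
      (μ : Measure (Config d (q + 2))).real (H B q (p + B.v) (l + 1)) +
      (μ : Measure (Config d (q + 2))).real (H B q p (l + 2))) / 4 ≤
    (Phi B.N (rl B q) μ : Measure (Config d (q + 2))).real (H B q p (l + 1)) := by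
  have hm : ∀ (p : Fin d → ℤ) (l : ℕ),
      Measurable ((H B q p l).indicator (1 : Config d (q + 2) → ℝ≥0∞)) :=
    fun p l => measurable_one.indicator (measurable_H p l)
  have h := lintegral_mono (μ := (μ : Measure (Config d (q + 2)))) fun x => step_H B x p l
  rw [← Phi_apply μ (measurable_H p _), lintegral_const_mul' _ _ (by finiteness),
    lintegral_add_right _ (hm _ _), lintegral_add_right _ (hm _ _),
    lintegral_add_right _ (hm _ _)] at h
  simp only [lintegral_indicator_one (measurable_H _ _)] at h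
  have h2 := ENNReal.toReal_mono (measure_ne_top _ _) h
  rw [ENNReal.toReal_mul, ENNReal.toReal_add (by finiteness) (by finiteness),
    ENNReal.toReal_add (by finiteness) (by finiteness),
    ENNReal.toReal_add (by finiteness) (by finiteness)] at h2
  simp only [ENNReal.toReal_mul, ENNReal.toReal_inv, ENNReal.toReal_ofNat] at h2
  simp only [Measure.real]
  linarith

theorem iter_lower (B : Nb d) (μ : ProbabilityMeasure (Config d (q + 2))) (t : ℕ) :
    ∀ (p : Fin d → ℤ) (l : ℕ), 1 - surv t l ≤
      ((Phi B.N (rl B q))^[t] μ : Measure (Config d (q + 2))).real (H B q p l) := by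
  have h0 : ∀ p : Fin d → ℤ, H B q p 0 = Set.univ := fun p => by simp [H]
  induction t with
  | zero =>
    intro p l
    cases l with
    | zero => simp [h0, surv]
    | succ l => simp [surv]
  | succ t ih =>
    intro p l
    cases l with
    | zero => simp [h0, surv]
    | succ l =>
      rw [Function.iterate_succ_apply', surv_succ]
      have := Phi_H B ((Phi B.N (rl B q))^[t] μ) p l
      have := ih (p + B.v) l
      have := ih p (l + 1)
      have := ih (p + B.v) (l + 1)
      have := ih p (l + 2)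
      linarith

theorem occ_le (B : Nb d) (μ : ProbabilityMeasure (Config d (q + 2))) (t : ℕ) (i : Fin d → ℤ) :
    ((Phi B.N (rl B q))^[t + 1] μ : Measure (Config d (q + 2))).real {x | x i ≠ 0} ≤
      surv t 2 := by
  have h1 := iter_lower B μ t i 2
  have hm : MeasurableSet {x : Config d (q + 2) | x i ≠ 0} := by measurability
  have h2 : ∀ x, (H B q i 2).indicator 1 x ≤ step B.N (rl B q) x {x | x i ≠ 0}ᶜ := by
    intro x
    by_cases hx : x ∈ H B q i 2
    · rw [Set.indicator_of_mem hx, Pi.one_apply, ← measure_univ (μ := step B.N (rl B q) x)]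
      refine measure_mono_ae ?_
      filter_upwards [ae_step x] with y hy _ hn
      rcases (hy i).2 with k | ⟨-, k | k⟩
      · exact hn k
      · exact hx 0 (by omega) (by rw [pv_zero]; exact k)
      · exact hx 1 (by omega) (by rw [pv_succ, pv_zero]; exact k)
    · rw [Set.indicator_of_notMem hx]
      exact zero_le
  have h3 := lintegral_mono (μ := ((Phi B.N (rl B q))^[t] μ : Measure (Config d (q + 2)))) h2
  rw [← Phi_apply _ hm.compl, lintegral_indicator_one (measurable_H _ _)] at h3
  have h4 := ENNReal.toReal_mono (measure_ne_top _ _) h3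
  rw [← Measure.real, ← Measure.real, probReal_compl_eq_one_sub hm] at h4
  rw [Function.iterate_succ_apply']
  linarith

theorem surv_two : Tendsto (fun t => surv t 2) atTop (𝓝 0) := by
  have h := (surv_tendsto.comp (tendsto_add_atTop_nat 1)).const_mul 4
  rw [mul_zero] at h
  refine squeeze_zero (fun t => (surv_mem t 2).1) (fun t => ?_) h
  have := surv_succ t 0
  have := (surv_mem t 0).1
  have := (surv_mem t 1).1
  simp only [Function.comp]
  norm_num at *
  linarith

/-- the point mass at the configuration of zeros -/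
noncomputable def p0 (d q : ℕ) : ProbabilityMeasure (Config d (q + 2)) :=
  ⟨Measure.dirac fun _ => 0, inferInstance⟩

theorem local_dev (ν : Measure (Config d (q + 2))) [IsProbabilityMeasure ν]
    (C : Set (Config d (q + 2))) (hC : MeasurableSet C) (D : Finset (Fin d → ℤ))
    (hD : ∀ x y : Config d (q + 2), (∀ i ∈ D, x i = y i) → x ∈ C → y ∈ C) :
    |ν.real C - (Measure.dirac (fun _ => 0 : Config d (q + 2))).real C| ≤
      ∑ i ∈ D, ν.real {x | x i ≠ 0} := by
  have hB : ν.real (⋃ i ∈ D, {x : Config d (q + 2) | x i ≠ 0}) ≤ ∑ i ∈ D, ν.real {x | x i ≠ 0} :=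
    measureReal_biUnion_finset_le _ _
  refine le_trans ?_ hB
  have hx : ∀ x : Config d (q + 2), x ∉ (⋃ i ∈ D, {x : Config d (q + 2) | x i ≠ 0}) →
      ∀ i ∈ D, x i = 0 := by
    intro x hx i hi
    by_contra hc
    exact hx (Set.mem_biUnion hi hc)
  by_cases h0 : (fun _ => 0 : Config d (q + 2)) ∈ C
  · have h1 : (Measure.dirac (fun _ => 0 : Config d (q + 2))).real C = 1 := by
      simp [Measure.real, Measure.dirac_apply' _ hC, h0]
    have h2 : ν.real Cᶜ ≤ ν.real (⋃ i ∈ D, {x : Config d (q + 2) | x i ≠ 0}) := by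
      apply measureReal_mono _ (measure_ne_top _ _)
      intro x hxc
      by_contra hc
      exact hxc (hD _ x (fun i hi => (hx x hc i hi).symm) h0)
    rw [probReal_compl_eq_one_sub hC] at h2
    have h3 : ν.real C ≤ 1 := measureReal_le_one
    rw [h1, abs_of_nonpos (by linarith)]
    linarith
  · have h1 : (Measure.dirac (fun _ => 0 : Config d (q + 2))).real C = 0 := by
      simp [Measure.real, Measure.dirac_apply' _ hC, h0]
    rw [h1, sub_zero, abs_of_nonneg measureReal_nonneg]
    apply measureReal_mono _ (measure_ne_top _ _)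
    intro x hxc
    by_contra hc
    exact h0 (hD x _ (fun i hi => hx x hc i hi) hxc)

theorem iter_dev (B : Nb d) (μ : ProbabilityMeasure (Config d (q + 2))) (t : ℕ)
    (C : Set (Config d (q + 2))) (hC : MeasurableSet C) (D : Finset (Fin d → ℤ))
    (hD : ∀ x y : Config d (q + 2), (∀ i ∈ D, x i = y i) → x ∈ C → y ∈ C) :
    |(((Phi B.N (rl B q))^[t + 1] μ) C : ℝ) - (p0 d q C : ℝ)| ≤ D.card * surv t 2 := by
  rw [← ProbabilityMeasure.measureReal_eq_coe_coeFn, ← ProbabilityMeasure.measureReal_eq_coe_coeFn]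
  refine (local_dev _ C hC D hD).trans ?_
  refine (Finset.sum_le_sum (fun i _ => occ_le B μ t i)).trans ?_
  simp

theorem unif (B : Nb d) : UniformlyErgodic (Phi B.N (rl B q)) (p0 d q) := by
  intro D w ε hε
  have h1 : Tendsto (fun t => (D.card : ℝ) * surv t 2) atTop (𝓝 (D.card * 0)) :=
    surv_two.const_mul _
  rw [mul_zero] at h1
  obtain ⟨T, hT⟩ := eventually_atTop.1 (h1.eventually (ge_mem_nhds hε))
  refine ⟨T + 1, fun t ht μ => ?_⟩
  obtain ⟨s, rfl⟩ : ∃ s, t = s + 1 := ⟨t - 1, by omega⟩
  refine (iter_dev B μ s _ (measurable_cyl D w) D ?_).trans (hT s (by omega))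
  intro x y hxy hx i
  rw [← hxy i i.2]
  exact hx i

theorem conv (B : Nb d) (μ : ProbabilityMeasure (Config d (q + 2))) :
    Tendsto (fun t : ℕ => (Phi B.N (rl B q))^[t] μ) atTop (𝓝 (p0 d q)) := by
  let S : Set (Set (Config d (q + 2))) := {C | MeasurableSet C ∧ ∃ D : Finset (Fin d → ℤ),
    ∀ x y : Config d (q + 2), (∀ i ∈ D, x i = y i) → x ∈ C → y ∈ C}
  have hS : IsPiSystem S := by
    rintro C ⟨hC, D, hD⟩ C' ⟨hC', D', hD'⟩ -
    refine ⟨hC.inter hC', D ∪ D', fun x y hxy hx => ⟨?_, ?_⟩⟩
    · exact hD x y (fun i hi => hxy i (Finset.mem_union_left _ hi)) hx.1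
    · exact hD' x y (fun i hi => hxy i (Finset.mem_union_right _ hi)) hx.2
  refine hS.tendsto_probabilityMeasure_of_tendsto_of_mem (fun s hs => hs.1) ?_ ?_
  · intro u hu x hx
    obtain ⟨I, v, h1, h2⟩ := isOpen_pi_iff.1 hu x hx
    refine ⟨(I : Set (Fin d → ℤ)).pi v, ⟨?_, I, ?_⟩, ?_, h2⟩
    · exact MeasurableSet.pi I.countable_toSet (fun _ _ => MeasurableSet.of_discrete)
    · intro x y hxy hx i hi
      rw [← hxy i hi]
      exact hx i hi
    · exact (isOpen_set_pi I.finite_toSet (fun a ha => (h1 a ha).1)).mem_nhds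
        (fun a ha => (h1 a ha).2)
  · rintro C ⟨hC, D, hD⟩
    rw [← NNReal.tendsto_coe, ← tendsto_add_atTop_iff_nat 1, tendsto_iff_dist_tendsto_zero]
    have h1 : Tendsto (fun t => (D.card : ℝ) * surv t 2) atTop (𝓝 (D.card * 0)) :=
      surv_two.const_mul _
    rw [mul_zero] at h1
    exact squeeze_zero (fun _ => dist_nonneg) (fun t => iter_dev B μ t C hC D hD) h1

theorem inv : Phi B.N (rl B q) (p0 d q) = p0 d q := by
  apply Subtype.ext
  show (Measure.dirac (fun _ => 0 : Config d (q + 2))).bind (step B.N (rl B q)) =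
    Measure.dirac _
  rw [Measure.dirac_bind (measurable_step _ _), step_eq]
  have : (fun i : Fin d → ℤ => (kp B (fun _ => 0 : Config d (q + 2)) i).toMeasure) =
      fun i : Fin d → ℤ => Measure.dirac ((fun _ => 0 : Config d (q + 2)) i) := by
    funext i
    rw [kp_eq, if_neg (by simp [Lf]), if_neg (by simp [Lf]), PMF.toMeasure_pure]
  rw [this]
  exact Measure.infinitePi_dirac _

theorem ergodic (B : Nb d) : ErgodicTo (Phi B.N (rl B q)) (p0 d q) := by
  refine ⟨inv, fun ν hν => ?_, conv B⟩
  have h := conv B ν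
  simp only [Function.iterate_fixed hν] at h
  exact tendsto_nhds_unique tendsto_const_nhds h

/-- exactly one left end, at `a` -/
def A (B : Nb d) (q : ℕ) (a : Fin d → ℤ) : Set (Config d (q + 2)) := {x | ∀ j, Lf B x j ↔ j = a}

theorem measurable_A (a : Fin d → ℤ) : MeasurableSet (A B q a) := by
  unfold A Lf
  measurability

theorem step_A (B : Nb d) (x : Config d (q + 2)) (a : Fin d → ℤ) :
    2⁻¹ * ((A B q a).indicator 1 x + (A B q (a + B.v)).indicator 1 x) ≤
      step B.N (rl B q) x (A B q a) := by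
  have n1 : a ≠ a + B.v := fun h => by
    have := e_ne B a 0 1 (by rwa [zero_smul, add_zero, one_smul])
    omega
  have n2 : a - B.v ≠ a + B.v := fun h => by
    have := e_ne B a (-1) 1 (by rwa [neg_smul, one_smul, ← sub_eq_add_neg])
    omega
  by_cases h1 : x ∈ A B q a
  · have h2 : x ∉ A B q (a + B.v) := fun h => n1 ((h a).1 ((h1 a).2 rfl))
    have h3 := step_one (B := B) x (a - B.v) {0}
    rw [kp_coin (by rw [sub_add_cancel]; exact (h1 a).2 rfl), cn_zero] at h3
    rw [Set.indicator_of_mem h1, Set.indicator_of_notMem h2, Pi.one_apply, add_zero, mul_one, ← h3]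
    refine measure_mono_ae ?_
    filter_upwards [ae_step x] with y hy hb j
    have hb' : y (a - B.v) = 0 := hb
    constructor
    · intro hL
      rcases (hy j).2 with k | ⟨k0, k | k⟩
      · exact absurd (k.symm.trans hL.1) zero_ne_one
      · exact (h1 j).1 k
      · rw [← (h1 _).1 k, add_sub_cancel_right] at hb'
        exact absurd (hb'.symm.trans k0) zero_ne_one
    · rintro rfl
      exact ⟨(hy j).1 ((h1 j).2 rfl), by rw [hb']; exact zero_ne_one⟩
  · rw [Set.indicator_of_notMem h1, zero_add]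
    by_cases h2 : x ∈ A B q (a + B.v)
    · have h3 := step_one (B := B) x a {1}
      rw [kp_coin ((h2 _).2 rfl), cn_one] at h3
      rw [Set.indicator_of_mem h2, Pi.one_apply, mul_one, ← h3]
      refine measure_mono_ae ?_
      filter_upwards [ae_step x] with y hy hb j
      have hb' : y a = 1 := hb
      constructor
      · intro hL
        rcases (hy j).2 with k | ⟨-, k | k⟩
        · exact absurd (k.symm.trans hL.1) zero_ne_one
        · refine absurd ?_ hL.2
          rw [(h2 j).1 k, add_sub_cancel_right]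
          exact hb'
        · exact add_right_cancel ((h2 _).1 k)
      · rintro rfl
        refine ⟨hb', fun h4 => ?_⟩
        rcases (hy (j - B.v)).2 with k | ⟨-, k | k⟩
        · exact absurd (k.symm.trans h4) zero_ne_one
        · exact n2 ((h2 _).1 k)
        · rw [sub_add_cancel] at k
          exact n1 ((h2 _).1 k)
    · rw [Set.indicator_of_notMem h2, mul_zero]
      exact zero_le

theorem iter_A (B : Nb d) (μ : ProbabilityMeasure (Config d (q + 2))) (w : ℕ → ℝ≥0∞)
    (hw : Antitone w) (h0 : ∀ j, w j ≤ (μ : Measure (Config d (q + 2))) (A B q (pv B 0 j))) (t : ℕ) :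
    ∀ j, w (j + t) ≤ ((Phi B.N (rl B q))^[t] μ : Measure (Config d (q + 2)))
      (A B q (pv B 0 j)) := by
  induction t with
  | zero => exact h0
  | succ t ih =>
    intro j
    have h := lintegral_mono (μ := ((Phi B.N (rl B q))^[t] μ : Measure (Config d (q + 2))))
      fun x => step_A B x (pv B 0 j)
    rw [← Phi_apply _ (measurable_A _), lintegral_const_mul' _ _ (by finiteness),
      lintegral_add_right _ (measurable_one.indicator (measurable_A _)),
      lintegral_indicator_one (measurable_A _), lintegral_indicator_one (measurable_A _),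
      ← pv_succ] at h
    rw [Function.iterate_succ_apply']
    refine le_trans ?_ h
    calc w (j + (t + 1)) = 2⁻¹ * (w (j + (t + 1)) + w (j + (t + 1))) := by
          rw [← two_mul, ← mul_assoc, ENNReal.inv_mul_cancel (by norm_num) (by norm_num), one_mul]
      _ ≤ _ := by
          gcongr
          · exact (hw (by omega)).trans (ih j)
          · exact (hw (by omega)).trans (ih (j + 1))

theorem exists_pmf : ∃ (w : PMF ℕ) (c : ℝ), 0 < c ∧ Antitone w ∧
    ∀ j : ℕ, (w j).toReal = c / ((j : ℝ) + 1) ^ 2 := by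
  have hs : Summable fun j : ℕ => 1 / ((j : ℝ) + 1) ^ 2 := by
    have := (summable_nat_add_iff 1).2 (Real.summable_one_div_nat_pow.2 one_lt_two)
    simpa using this
  have h1 : ∑' j : ℕ, ENNReal.ofReal (1 / ((j : ℝ) + 1) ^ 2) ≠ ∞ := by
    rw [← ENNReal.ofReal_tsum_of_nonneg (fun _ => by positivity) hs]
    exact ENNReal.ofReal_ne_top
  have h0 : ∑' j : ℕ, ENNReal.ofReal (1 / ((j : ℝ) + 1) ^ 2) ≠ 0 := fun h => by
    simpa using ENNReal.tsum_eq_zero.1 h 0
  refine ⟨PMF.normalize _ h0 h1, _, ENNReal.toReal_pos (ENNReal.inv_ne_zero.2 h1)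
    (ENNReal.inv_ne_top.2 h0), fun a b h => ?_, fun j => ?_⟩
  · rw [PMF.normalize_apply, PMF.normalize_apply]
    gcongr
  · rw [PMF.normalize_apply, ENNReal.toReal_mul, ENNReal.toReal_ofReal (by positivity)]
    ring

theorem not_exp2 {c K γ : ℝ} (hc : 0 < c) (hγ : γ < 1)
    (h : ∀ t : ℕ, c / ((t : ℝ) + 1) ^ 2 ≤ K * γ ^ t) : False := by
  have h0 := h 0
  have h1 := h 1
  norm_num at h0 h1
  have hγ0 : 0 < γ := by
    by_contra hn
    push Not at hn
    nlinarith
  have hlim := ((tendsto_pow_const_mul_const_pow_of_abs_lt_one 2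
    (r := γ) (by rwa [abs_of_pos hγ0])).comp (tendsto_add_atTop_nat 1)).const_mul K
  have h2 : c * γ ≤ K * 0 := by
    refine ge_of_tendsto' hlim fun t => ?_
    have := h t
    rw [div_le_iff₀ (by positivity)] at this
    simp only [Function.comp]
    push_cast
    have h3 := mul_le_mul_of_nonneg_right this hγ0.le
    rw [pow_succ γ]
    linarith
  nlinarith

theorem not_weakExp (B : Nb d) : ¬ WeakExpConv (Phi B.N (rl B q)) (p0 d q) := by
  intro h
  obtain ⟨w, c, hc, hw, hv⟩ := exists_pmf
  let cf : ℕ → Config d (q + 2) := fun j s => if s = pv B 0 j then 1 else 0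
  have hcf : Measurable cf := Measurable.of_discrete
  let ν : ProbabilityMeasure (Config d (q + 2)) :=
    ⟨w.toMeasure.map cf, Measure.isProbabilityMeasure_map hcf.aemeasurable⟩
  have h0 : ∀ j, w j ≤ (ν : Measure (Config d (q + 2))) (A B q (pv B 0 j)) := by
    intro j
    change w j ≤ w.toMeasure.map cf _
    rw [Measure.map_apply hcf (measurable_A _),
      ← PMF.toMeasure_apply_singleton w j MeasurableSet.of_discrete]
    refine measure_mono (Set.singleton_subset_iff.2 fun s => ⟨fun hL => ?_, ?_⟩)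
    · by_contra hn
      exact zero_ne_one ((if_neg hn).symm.trans hL.1)
    · rintro rfl
      refine ⟨if_pos rfl, fun h1 => zero_ne_one ((if_neg fun h2 => ?_).symm.trans h1)⟩
      have := e_ne B (pv B 0 j) (-1) 0 (by
        rwa [neg_smul, one_smul, ← sub_eq_add_neg, zero_smul, add_zero])
      omega
  obtain ⟨K, γ, hγ, hK⟩ := h {0} (fun _ => 0) ν
  refine not_exp2 hc hγ fun t => le_trans ?_ (hK t)
  have h1 := ENNReal.toReal_mono (measure_ne_top _ _) (iter_A B ν w hw h0 t 0)
  rw [zero_add, hv, pv_zero, ← Measure.real] at h1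
  have hm := measurable_cyl (q := q + 2) ({0} : Finset (Fin d → ℤ)) fun _ => 0
  have h2 : A B q (0 : Fin d → ℤ) ⊆ (cyl ({0} : Finset (Fin d → ℤ)) fun _ => (0 : Fin (q + 2)))ᶜ :=
    fun x hx hy => zero_ne_one ((hy ⟨0, by simp⟩).symm.trans ((hx 0).2 rfl).1)
  have h3 := h1.trans (measureReal_mono h2 (measure_ne_top _ _))
  rw [probReal_compl_eq_one_sub hm] at h3
  have h4 : (p0 d q : Measure (Config d (q + 2))).real
      (cyl ({0} : Finset (Fin d → ℤ)) fun _ => (0 : Fin (q + 2))) = 1 := by
    change (Measure.dirac _).real _ = 1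
    have h5 : (fun _ => 0 : Config d (q + 2)) ∈
        cyl ({0} : Finset (Fin d → ℤ)) fun _ => (0 : Fin (q + 2)) := fun _ => rfl
    rw [Measure.real, Measure.dirac_apply' _ hm, Set.indicator_of_mem h5]
    simp
  unfold dev
  rw [← ProbabilityMeasure.measureReal_eq_coe_coeFn, ← ProbabilityMeasure.measureReal_eq_coe_coeFn,
    h4, abs_sub_comm]
  exact h3.trans (le_abs_self _)

theorem not_exp' (B : Nb d) : ¬ ExpConv (Phi B.N (rl B q)) (p0 d q) := fun h =>
  not_weakExp B fun D w μ => (h D w).imp fun _ => Exists.imp fun _ k => ⟨k.1, fun t => k.2 t μ⟩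

end Pool.Agent.Lib.MP_37af32_pr.Bin
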