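import Mathlib

set_option autoImplicit false

namespace Pool.Agent.Lib.MP_37af32_pr

open MeasureTheory Filter Topology

/-- configurations on the lattice `ℤ^d` over the alphabet `Fin q` -/
abbrev Config (d q : ℕ) : Type := (Fin d → ℤ) → Fin q

variable {d q : ℕ}

/-- law of the new configuration given the old one `x`: independent symbols, the symbol at `i`
being distributed as `f` applied to the pattern `(x (i + n))_{n ∈ N}`. -/
noncomputable def step (N : Finset (Fin d → ℤ)) (f : (N → Fin q) → PMF (Fin q))
    (x : Config d q) : Measure (Config d q) :=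
  Measure.infinitePi (fun i : Fin d → ℤ => (f (fun n : N => x (i + n))).toMeasure)

instance (N : Finset (Fin d → ℤ)) (f : (N → Fin q) → PMF (Fin q)) (x : Config d q) :
    IsProbabilityMeasure (step N f x) := by
  unfold step; infer_instance

theorem measurable_step (N : Finset (Fin d → ℤ)) (f : (N → Fin q) → PMF (Fin q)) :
    Measurable (step N f) := by
  refine Measurable.measure_of_isPiSystem_of_isProbabilityMeasure
    generateFrom_squareCylinders.symm
    (isPiSystem_squareCylinders (fun _ => MeasurableSpace.isPiSystem_measurableSet) (by simp)) ?_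
  rintro _ ⟨s, t, -, rfl⟩
  have h : (fun x => step N f x ((s : Set (Fin d → ℤ)).pi t)) =
      fun x : Config d q => ∏ i ∈ s, (f (fun n : N => x (i + n))).toMeasure (t i) := by
    funext x
    exact Measure.infinitePi_pi _ (fun _ _ => MeasurableSet.of_discrete)
  rw [h]
  refine Finset.measurable_prod _ (fun i _ => ?_)
  exact (Measurable.of_discrete (f := fun u : N → Fin q => (f u).toMeasure (t i))).comp
    (measurable_pi_lambda _ (fun n => measurable_pi_apply _))

/-- the Markov operator of the probabilistic cellular automaton with neighbourhood `N` and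
local rule `f`, acting on probability measures on configurations -/
noncomputable def Phi (N : Finset (Fin d → ℤ)) (f : (N → Fin q) → PMF (Fin q))
    (μ : ProbabilityMeasure (Config d q)) : ProbabilityMeasure (Config d q) :=
  ⟨(μ : Measure (Config d q)).bind (step N f), by
    constructor
    rw [Measure.bind_apply MeasurableSet.univ (measurable_step N f).aemeasurable]
    simp⟩

/-- the cylinder set `[w]` of a pattern `w` on the finite set `D` -/
def cyl (D : Finset (Fin d → ℤ)) (w : D → Fin q) : Set (Config d q) := {x | ∀ i : D, x i = w i}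

/-- `|μ Φ^t ([w]) - π([w])|` -/
noncomputable def dev (Φ : ProbabilityMeasure (Config d q) → ProbabilityMeasure (Config d q))
    (π μ : ProbabilityMeasure (Config d q)) (t : ℕ) (D : Finset (Fin d → ℤ)) (w : D → Fin q) : ℝ :=
  |((Φ^[t] μ) (cyl D w) : ℝ) - (π (cyl D w) : ℝ)|

/-- `π` is the unique invariant measure and `μ Φ^t → π` weakly for every `μ` -/
def ErgodicTo (Φ : ProbabilityMeasure (Config d q) → ProbabilityMeasure (Config d q))
    (π : ProbabilityMeasure (Config d q)) : Prop :=
  Φ π = π ∧ (∀ ν, Φ ν = ν → ν = π) ∧ ∀ μ, Tendsto (fun t : ℕ => Φ^[t] μ) atTop (𝓝 π)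

/-- for each cylinder the deviation tends to `0` uniformly in the initial measure -/
def UniformlyErgodic (Φ : ProbabilityMeasure (Config d q) → ProbabilityMeasure (Config d q))
    (π : ProbabilityMeasure (Config d q)) : Prop :=
  ∀ D w, ∀ ε : ℝ, 0 < ε → ∃ T : ℕ, ∀ t ≥ T, ∀ μ, dev Φ π μ t D w ≤ ε

/-- exponential convergence with constants independent of the initial measure -/
def ExpConv (Φ : ProbabilityMeasure (Config d q) → ProbabilityMeasure (Config d q))
    (π : ProbabilityMeasure (Config d q)) : Prop :=
  ∀ D w, ∃ K γ : ℝ, γ < 1 ∧ ∀ t μ, dev Φ π μ t D w ≤ K * γ ^ t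

/-- exponential convergence with constants allowed to depend on the initial measure -/
def WeakExpConv (Φ : ProbabilityMeasure (Config d q) → ProbabilityMeasure (Config d q))
    (π : ProbabilityMeasure (Config d q)) : Prop :=
  ∀ D w μ, ∃ K γ : ℝ, γ < 1 ∧ ∀ t, dev Φ π μ t D w ≤ K * γ ^ t

end Pool.Agent.Lib.MP_37af32_pr
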