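import Mathlib

/-!
The planar lazy walk with independent coordinates: the chance of not visiting the origin up to
time `n` tends to zero and is at least of order `1 / log n`.
-/

set_option autoImplicit false

namespace Pool.Agent.Lib.MP_37af32_pr.LG

open Filter Topology Finset

/-- one step of the planar walk -/
noncomputable def av (f : ℤ → ℤ → ℝ) (i j : ℤ) : ℝ :=
  (f (i - 1) (j - 1) + 2 * f (i - 1) j + f (i - 1) (j + 1) + 2 * f i (j - 1) + 4 * f i j +
    2 * f i (j + 1) + f (i + 1) (j - 1) + 2 * f (i + 1) j + f (i + 1) (j + 1)) / 16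

/-- chance that the walk from `(i, j)` avoids the origin at the times `0, .., n` -/
noncomputable def q : ℕ → ℤ → ℤ → ℝ
  | 0 => fun i j => if i = 0 ∧ j = 0 then 0 else 1
  | n + 1 => fun i j => if i = 0 ∧ j = 0 then 0 else av (q n) i j

/-- law of one coordinate -/
noncomputable def s : ℕ → ℤ → ℝ
  | 0 => fun j => if j = 0 then 1 else 0
  | n + 1 => fun j => (s n (j - 1) + 2 * s n j + s n (j + 1)) / 4

/-- chance of no return to the origin at the times `1, .., n` -/
noncomputable def r : ℕ → ℝ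
  | 0 => 1
  | n + 1 => av (q n) 0 0

theorem q_zero (i j : ℤ) : q 0 i j = if i = 0 ∧ j = 0 then 0 else 1 := rfl

theorem q_succ (n : ℕ) (i j : ℤ) : q (n + 1) i j = if i = 0 ∧ j = 0 then 0 else av (q n) i j := rfl

theorem q_orig (n : ℕ) : q n 0 0 = 0 := by cases n <;> simp [q]

theorem av_mono {f g : ℤ → ℤ → ℝ} (h : ∀ i j, f i j ≤ g i j) (i j : ℤ) : av f i j ≤ av g i j := by
  unfold av
  linarith [h (i - 1) (j - 1), h (i - 1) j, h (i - 1) (j + 1), h i (j - 1), h i j, h i (j + 1),
    h (i + 1) (j - 1), h (i + 1) j, h (i + 1) (j + 1)]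

theorem av_const (c : ℝ) (i j : ℤ) : av (fun _ _ => c) i j = c := by unfold av; ring

theorem q_mem (n : ℕ) : ∀ i j, 0 ≤ q n i j ∧ q n i j ≤ 1 := by
  induction n with
  | zero => intro i j; rw [q_zero]; split_ifs <;> norm_num
  | succ n ih =>
    intro i j
    rw [q_succ]
    split_ifs
    · norm_num
    · exact ⟨(av_const 0 i j).symm.le.trans (av_mono (fun i j => (ih i j).1) i j),
        (av_mono (fun i j => (ih i j).2) i j).trans (av_const 1 i j).le⟩

theorem q_anti (n : ℕ) : ∀ i j, q (n + 1) i j ≤ q n i j := by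
  induction n with
  | zero =>
    intro i j
    have := q_mem 1 i j
    rw [q_succ] at this ⊢
    rw [q_zero]
    split_ifs at this ⊢
    · exact le_rfl
    · exact this.2
  | succ n ih =>
    intro i j
    rw [q_succ (n + 1), q_succ n]
    split_ifs
    · exact le_rfl
    · exact av_mono ih i j

theorem q_neg (n : ℕ) : ∀ i j, q n (-i) (-j) = q n i j := by
  induction n with
  | zero => intro i j; simp only [q_zero, neg_eq_zero]
  | succ n ih =>
    intro i j
    simp only [q_succ, neg_eq_zero]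
    split_ifs
    · rfl
    · unfold av
      rw [show -i - 1 = -(i + 1) by ring, show -j - 1 = -(j + 1) by ring,
        show -i + 1 = -(i - 1) by ring, show -j + 1 = -(j - 1) by ring]
      simp only [ih]
      ring

theorem r_mem (n : ℕ) : 0 ≤ r n ∧ r n ≤ 1 := by
  cases n with
  | zero => simp [r]
  | succ n =>
    exact ⟨(av_const 0 0 0).symm.le.trans (av_mono (fun i j => (q_mem n i j).1) 0 0),
      (av_mono (fun i j => (q_mem n i j).2) 0 0).trans (av_const 1 0 0).le⟩

theorem r_anti : Antitone r := by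
  refine antitone_nat_of_succ_le (fun n => ?_)
  cases n with
  | zero => exact (r_mem 1).2
  | succ n => exact av_mono (q_anti n) 0 0

/-- decomposition according to the last visit of the origin -/
theorem last_visit (n : ℕ) :
    ∀ i j, q n i j + ∑ k ∈ range (n + 1), s k i * s k j * r (n - k) = 1 := by
  induction n with
  | zero =>
    intro i j
    simp only [q_zero, zero_add, range_one, sum_singleton, s, r, Nat.sub_zero]
    by_cases hi : i = 0 <;> by_cases hj : j = 0 <;> simp [hi, hj]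
  | succ n ih =>
    intro i j
    have h1 : ∑ k ∈ range (n + 1), s (k + 1) i * s (k + 1) j * r (n + 1 - (k + 1)) =
        av (fun i j => ∑ k ∈ range (n + 1), s k i * s k j * r (n - k)) i j := by
      simp only [av, mul_sum, ← sum_add_distrib, sum_div, Nat.add_sub_add_right]
      refine sum_congr rfl (fun k _ => ?_)
      simp only [s]
      ring
    have h2 : av (fun i j => ∑ k ∈ range (n + 1), s k i * s k j * r (n - k)) i j =
        1 - av (q n) i j := by
      have : (fun i j => ∑ k ∈ range (n + 1), s k i * s k j * r (n - k)) =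
          fun i j => 1 - q n i j := by
        funext i j
        linarith [ih i j]
      rw [this]
      unfold av
      ring
    rw [sum_range_succ', h1, h2, q_succ]
    simp only [s, Nat.sub_zero, r]
    by_cases hi : i = 0 <;> by_cases hj : j = 0 <;> simp [hi, hj]

/-- binomial coefficients with an integer lower index -/
noncomputable def bin (m : ℕ) (j : ℤ) : ℝ := if j < 0 then 0 else (m.choose j.toNat : ℝ)

theorem bin_succ (m : ℕ) (j : ℤ) : bin (m + 1) j = bin m (j - 1) + bin m j := by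
  unfold bin
  rcases lt_trichotomy j 0 with h | h | h
  · rw [if_pos h, if_pos h, if_pos (by omega), add_zero]
  · subst h
    simp
  · obtain ⟨k, rfl⟩ : ∃ k : ℕ, j = k + 1 := ⟨(j - 1).toNat, by omega⟩
    rw [if_neg (by omega), if_neg (by omega), if_neg (by omega),
      show ((k : ℤ) + 1).toNat = k + 1 by omega, show ((k : ℤ) + 1 - 1).toNat = k by omega,
      Nat.choose_succ_succ']
    push_cast
    rfl

theorem s_eq (n : ℕ) : ∀ j, s n j = bin (2 * n) (n + j) / 4 ^ n := by
  induction n with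
  | zero =>
    intro j
    simp only [s, bin, mul_zero, Nat.cast_zero, zero_add, pow_zero, div_one]
    rcases lt_trichotomy j 0 with h | h | h
    · rw [if_neg h.ne, if_pos h]
    · simp [h]
    · rw [if_neg h.ne', if_neg (by omega), Nat.choose_eq_zero_of_lt (by omega), Nat.cast_zero]
  | succ n ih =>
    intro j
    simp only [s, ih]
    rw [show 2 * (n + 1) = 2 * n + 1 + 1 by ring, bin_succ, bin_succ, bin_succ]
    push_cast
    rw [show (n : ℤ) + 1 + j - 1 - 1 = n + (j - 1) by ring, show (n : ℤ) + 1 + j - 1 = n + j by ring,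
      show (n : ℤ) + 1 + j = n + (j + 1) by ring]
    ring

theorem s_orig (n : ℕ) : s n 0 = (n.centralBinom : ℝ) / 4 ^ n := by
  rw [s_eq, bin, if_neg (by omega), add_zero, Int.toNat_natCast, Nat.centralBinom_eq_two_mul_choose]

theorem s_step (n : ℕ) : s (n + 1) 0 = s n 0 * ((2 * n + 1) / (2 * n + 2)) := by
  have h : ((n : ℝ) + 1) * (n + 1).centralBinom = 2 * (2 * n + 1) * n.centralBinom := by
    exact_mod_cast Nat.succ_mul_centralBinom_succ n
  have h0 : (n : ℝ) + 1 ≠ 0 := by positivity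
  have h1 : ((n + 1).centralBinom : ℝ) = 2 * (2 * n + 1) * n.centralBinom / (n + 1) := by
    rw [eq_div_iff h0]; linarith
  rw [s_orig, s_orig, h1]
  field_simp
  ring

theorem u_bounds (n : ℕ) :
    1 / (4 * (n : ℝ) + 1) ≤ s n 0 * s n 0 ∧ s n 0 * s n 0 ≤ 1 / (2 * (n : ℝ) + 1) := by
  induction n with
  | zero => simp [s]
  | succ n ih =>
    have e : s (n + 1) 0 * s (n + 1) 0 = s n 0 * s n 0 * ((2 * n + 1) / (2 * n + 2)) ^ 2 := by
      rw [s_step]; ring
    have n0 : (0 : ℝ) ≤ n := Nat.cast_nonneg n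
    rw [e]
    push_cast
    constructor
    · refine le_trans ?_ (mul_le_mul_of_nonneg_right ih.1 (by positivity))
      rw [div_pow, div_mul_div_comm, div_le_div_iff₀ (by positivity) (by positivity)]
      nlinarith
    · refine le_trans (mul_le_mul_of_nonneg_right ih.2 (by positivity)) ?_
      rw [div_pow, div_mul_div_comm, div_le_div_iff₀ (by positivity) (by positivity)]
      nlinarith

theorem u_nonneg (n : ℕ) : 0 ≤ s n 0 * s n 0 := mul_self_nonneg _

theorem renewal (n : ℕ) : ∑ k ∈ range (n + 1), s k 0 * s k 0 * r (n - k) = 1 := by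
  have := last_visit n 0 0
  rwa [q_orig, zero_add] at this

theorem r_tendsto : Tendsto r atTop (𝓝 0) := by
  have h1 : Tendsto (fun n : ℕ => (1 / 4 : ℝ) * ∑ k ∈ range (n + 1), 1 / ((k : ℝ) + 1)) atTop
      atTop :=
    (Real.tendsto_sum_range_one_div_nat_succ_atTop.comp (tendsto_add_atTop_nat 1)).const_mul_atTop
      (by norm_num)
  refine squeeze_zero (fun n => (r_mem n).1) (fun n => ?_) h1.inv_tendsto_atTop
  have h2 : 0 < (1 / 4 : ℝ) * ∑ k ∈ range (n + 1), 1 / ((k : ℝ) + 1) :=
    mul_pos (by norm_num) (sum_pos (fun k _ => by positivity) ⟨0, by simp⟩)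
  rw [Pi.inv_apply, ← one_div, le_div_iff₀ h2, mul_sum, mul_sum]
  refine le_of_le_of_eq (sum_le_sum (fun k _ => ?_)) (renewal n)
  rw [mul_comm]
  refine mul_le_mul ?_ (r_anti (Nat.sub_le n k)) (r_mem n).1 (u_nonneg k)
  refine le_trans ?_ (u_bounds k).1
  have k0 : (0 : ℝ) ≤ k := Nat.cast_nonneg k
  rw [div_mul_div_comm, div_le_div_iff₀ (by positivity) (by positivity)]
  linarith

theorem green_le (n : ℕ) : ∑ k ∈ range (n + 1), s k 0 * s k 0 ≤ 1 + Real.log (n + 1) := by
  induction n with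
  | zero => simp [s]
  | succ n ih =>
    have n0 : (0 : ℝ) ≤ n := Nat.cast_nonneg n
    have h1 := (u_bounds (n + 1)).2
    have h2 := Real.log_le_sub_one_of_pos (show (0 : ℝ) < (n + 1) / (n + 1 + 1) by positivity)
    rw [Real.log_div (by positivity) (by positivity)] at h2
    have h3 : ((n : ℝ) + 1) / (n + 1 + 1) - 1 = -(1 / (n + 1 + 1)) := by field_simp; ring
    have h4 : 1 / (2 * ((n : ℝ) + 1) + 1) ≤ 1 / (n + 1 + 1) :=
      one_div_le_one_div_of_le (by positivity) (by linarith)
    rw [sum_range_succ]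
    push_cast at h1 ⊢
    linarith

theorem r_lower (n : ℕ) : 1 / 2 ≤ r n * (1 + Real.log (n + 1)) := by
  have h := renewal (n + n)
  rw [show n + n + 1 = (n + 1) + n by ring, sum_range_add] at h
  have h1 : ∑ k ∈ range (n + 1), s k 0 * s k 0 * r (n + n - k) ≤
      r n * ∑ k ∈ range (n + 1), s k 0 * s k 0 := by
    rw [mul_sum]
    refine sum_le_sum (fun k hk => ?_)
    rw [mul_comm (r n)]
    exact mul_le_mul_of_nonneg_left (r_anti (by have := mem_range.1 hk; omega)) (u_nonneg k)
  have n0 : (0 : ℝ) ≤ n := Nat.cast_nonneg n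
  have h2 : ∑ k ∈ range n, s (n + 1 + k) 0 * s (n + 1 + k) 0 * r (n + n - (n + 1 + k)) ≤
      ∑ _k ∈ range n, 1 / (2 * (n : ℝ) + 1) := by
    refine sum_le_sum (fun k _ => ?_)
    refine (mul_le_of_le_one_right (u_nonneg _) (r_mem _).2).trans ((u_bounds _).2.trans ?_)
    have k0 : (0 : ℝ) ≤ k := Nat.cast_nonneg k
    push_cast
    exact one_div_le_one_div_of_le (by positivity) (by linarith)
  have h3 : ∑ _k ∈ range n, 1 / (2 * (n : ℝ) + 1) ≤ 1 / 2 := by
    rw [sum_const, card_range, nsmul_eq_mul, mul_one_div,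
      div_le_div_iff₀ (by positivity) (by positivity)]
    linarith
  have h4 := mul_le_mul_of_nonneg_left (green_le n) (r_mem n).1
  linarith

theorem q_le_r (n : ℕ) : q n 1 0 ≤ 8 * r (n + 1) ∧ q n 0 1 ≤ 8 * r (n + 1) := by
  have h := fun i j => (q_mem n i j).1
  simp only [r, av, zero_add, zero_sub]
  constructor <;> linarith [h (-1) (-1), h (-1) 0, h (-1) 1, h 0 (-1), h 0 0, h 0 1, h 1 (-1),
    h 1 0, h 1 1]

theorem r_le_q (n : ℕ) : r (n + 1) ≤ 2 * q (n + 1) 1 0 := by
  have h := fun i j => (q_mem n i j).1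
  have a1 : q n (-1) (-1) = q n 1 1 := q_neg n 1 1
  have a2 : q n (-1) 0 = q n 1 0 := q_neg n 1 0
  have a3 : q n (-1) 1 = q n 1 (-1) := by rw [← q_neg n 1 (-1), neg_neg]
  have e1 : r (n + 1) = (q n (-1) (-1) + 2 * q n (-1) 0 + q n (-1) 1 + 2 * q n 0 (-1) +
      4 * q n 0 0 + 2 * q n 0 1 + q n 1 (-1) + 2 * q n 1 0 + q n 1 1) / 16 := rfl
  have e2 : av (q n) 1 0 = (q n 0 (-1) + 2 * q n 0 0 + q n 0 1 + 2 * q n 1 (-1) +
      4 * q n 1 0 + 2 * q n 1 1 + q n 2 (-1) + 2 * q n 2 0 + q n 2 1) / 16 := rfl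
  rw [q_succ, if_neg (by simp), e1, e2, a1, a2, a3]
  linarith [h 1 (-1), h 1 0, h 1 1, h 2 (-1), h 2 0, h 2 1]

theorem q_tendsto : Tendsto (fun n => q n 1 0 + q n 0 1) atTop (𝓝 0) := by
  have h := (r_tendsto.comp (tendsto_add_atTop_nat 1)).const_mul 16
  rw [mul_zero] at h
  refine squeeze_zero (fun n => add_nonneg (q_mem n _ _).1 (q_mem n _ _).1) (fun n => ?_) h
  have := q_le_r n
  simp only [Function.comp]
  linarith [this.1, this.2]

theorem q_lower (n : ℕ) : 1 / (8 * Real.log (n + 3)) ≤ q (n + 1) 1 0 := by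
  have n0 : (0 : ℝ) ≤ n := Nat.cast_nonneg n
  have h1 := r_lower (n + 1)
  have h2 := r_le_q n
  have h3 : 1 ≤ Real.log ((n : ℝ) + 3) := by
    rw [Real.le_log_iff_exp_le (by positivity)]
    linarith [Real.exp_one_lt_d9]
  have h4 : Real.log (((n + 1 : ℕ) : ℝ) + 1) ≤ Real.log ((n : ℝ) + 3) :=
    Real.log_le_log (by positivity) (by push_cast; linarith)
  have h5 := mul_le_mul_of_nonneg_left
    (show 1 + Real.log (((n + 1 : ℕ) : ℝ) + 1) ≤ 2 * Real.log ((n : ℝ) + 3) by linarith)
    (r_mem (n + 1)).1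
  have h6 := mul_le_mul_of_nonneg_right h2 (show 0 ≤ 2 * Real.log ((n : ℝ) + 3) by linarith)
  rw [div_le_iff₀ (by positivity)]
  linarith

end Pool.Agent.Lib.MP_37af32_pr.LG
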