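import Mathlib
import Pool.Agent.Lib.MP_37af32_pr.LGWalk

/-!
Interfaces of the planar voter model as a one-form with values in the field of two elements.
The deterministic update given the arrows, and the dual pair of walks.
-/

set_option autoImplicit false

namespace Pool.Agent.Lib.MP_37af32_pr.LG

open Finset
open scoped ENNReal

/-- two independent directions of the lattice -/
structure Dir (d : ℕ) where
  v : Fin d → ℤ
  w : Fin d → ℤ
  inj : ∀ i j i' j' : ℕ, i • v + j • w = i' • v + j' • w → i = i' ∧ j = j'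

abbrev Fld (d : ℕ) : Type := (Fin d → ℤ) → ZMod 2

abbrev Arr (d : ℕ) : Type := (Fin d → ℤ) → Bool × Bool

variable {d : ℕ} (E : Dir d)

/-- the sum of the form along the arrow at `i` -/
def phi (a b : Fld d) (β : Arr d) (i : Fin d → ℤ) : ZMod 2 :=
  (if (β i).1 then a i else 0) + (if (β i).2 then (if (β i).1 then b (i + E.v) else b i) else 0)

/-- the sum of the form around the square at `i` -/
def curl (a b : Fld d) (i : Fin d → ℤ) : ZMod 2 := a i + b (i + E.v) + a (i + E.w) + b i

def nA (a b : Fld d) (β : Arr d) : Fld d := fun i => a i + phi E a b β i + phi E a b β (i + E.v)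

def nB (a b : Fld d) (β : Arr d) : Fld d := fun i =>
  b i + phi E a b β i + phi E a b β (i + E.w) + (if (β i).1 then curl E a b i else 0)

theorem two0 : (2 : ZMod 2) = 0 := rfl

theorem curl_next (a b : Fld d) (β : Arr d) (i : Fin d → ℤ) :
    curl E (nA E a b β) (nB E a b β) i = (if (β i).1 then 0 else curl E a b i) +
      (if (β (i + E.v)).1 then curl E a b (i + E.v) else 0) := by
  have h : (if (β i).1 then 0 else curl E a b i) =
      a i + b (i + E.v) + a (i + E.w) + b i + (if (β i).1 then curl E a b i else 0) := by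
    split_ifs
    · unfold curl
      linear_combination (-(a i + b (i + E.v) + a (i + E.w) + b i)) * two0
    · rw [add_zero]; rfl
  rw [h]
  show nA E a b β i + nB E a b β (i + E.v) + nA E a b β (i + E.w) + nB E a b β i = _
  simp only [nA, nB, add_right_comm i E.w E.v]
  linear_combination (phi E a b β i + phi E a b β (i + E.v) + phi E a b β (i + E.w) +
    phi E a b β (i + E.v + E.w)) * two0

/-- points of the quarter plane at `y` -/
def P (y : Fin d → ℤ) (p : ℕ × ℕ) : Fin d → ℤ := y + (p.1 • E.v + p.2 • E.w)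

theorem P_zero (y : Fin d → ℤ) : P E y (0, 0) = y := by simp [P]

theorem P_v (y : Fin d → ℤ) (i j : ℕ) : P E y (i, j) + E.v = P E y (i + 1, j) := by
  simp only [P, succ_nsmul]; abel

theorem P_w (y : Fin d → ℤ) (i j : ℕ) : P E y (i, j) + E.w = P E y (i, j + 1) := by
  simp only [P, succ_nsmul]; abel

theorem P_inj (y : Fin d → ℤ) : Function.Injective (P E y) := by
  intro p p' h
  have := E.inj _ _ _ _ (add_left_cancel h)
  exact Prod.ext this.1 this.2

/-- the end point of an arrow -/
def mv (p : ℕ × ℕ) (c : Bool × Bool) : ℕ × ℕ := (p.1 + c.1.toNat, p.2 + c.2.toNat)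

/-- the voter update of opinions -/
def pull (y : Fin d → ℤ) (β : Arr d) (η : ℕ × ℕ → ZMod 2) : ℕ × ℕ → ZMod 2 :=
  fun p => η (mv p (β (P E y p)))

/-- on the square of side `M` at `y` the form is the gradient of `η` -/
def Agree (y : Fin d → ℤ) (M : ℕ) (a b : Fld d) (η : ℕ × ℕ → ZMod 2) : Prop :=
  ∀ i j, i ≤ M → j ≤ M → a (P E y (i, j)) = η (i, j) + η (i + 1, j) ∧
    b (P E y (i, j)) = η (i, j) + η (i, j + 1)

theorem Agree.next {y : Fin d → ℤ} {M : ℕ} {a b : Fld d} {η : ℕ × ℕ → ZMod 2}
    (h : Agree E y (M + 2) a b η) (β : Arr d) :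
    Agree E y M (nA E a b β) (nB E a b β) (pull E y β η) := by
  have h1 : ∀ i j, i ≤ M + 1 → j ≤ M + 1 →
      phi E a b β (P E y (i, j)) = η (i, j) + pull E y β η (i, j) := by
    intro i j hi hj
    have a1 := h i j (by omega) (by omega)
    have a2 := h (i + 1) j (by omega) (by omega)
    unfold phi pull mv
    rw [P_v, a1.1, a1.2, a2.2]
    rcases β (P E y (i, j)) with ⟨_ | _, _ | _⟩ <;>
      simp only [Bool.toNat_false, Bool.toNat_true, add_zero, zero_add, if_true, if_false,
        Bool.false_eq_true]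
    · linear_combination (-η (i, j)) * two0
    · linear_combination (η (i + 1, j)) * two0
  intro i j hi hj
  have a1 := h i j (by omega) (by omega)
  have a2 := h (i + 1) j (by omega) (by omega)
  have a3 := h i (j + 1) (by omega) (by omega)
  have hc : curl E a b (P E y (i, j)) = 0 := by
    unfold curl
    rw [P_v, P_w, a1.1, a1.2, a2.2, a3.1]
    linear_combination (η (i, j) + η (i + 1, j) + η (i, j + 1) + η (i + 1, j + 1)) * two0
  unfold nA nB
  rw [P_v, P_w, hc, ite_self, h1 i j (by omega) (by omega), h1 (i + 1) j (by omega) (by omega),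
    h1 i (j + 1) (by omega) (by omega), a1.1, a1.2]
  constructor
  · linear_combination (η (i, j) + η (i + 1, j)) * two0
  · linear_combination (η (i, j) + η (i, j + 1)) * two0

theorem exists_agree (y : Fin d → ℤ) (M : ℕ) (a b : Fld d)
    (h : ∀ i j, i ≤ M → j ≤ M → curl E a b (P E y (i, j)) = 0) : ∃ η, Agree E y M a b η := by
  refine ⟨fun p => ∑ k ∈ range p.1, a (P E y (k, 0)) + ∑ l ∈ range p.2, b (P E y (p.1, l)),
    fun i j hi hj => ⟨?_, ?_⟩⟩
  · induction j with
    | zero =>
      simp only [sum_range_succ, sum_range_zero]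
      linear_combination (-∑ k ∈ range i, a (P E y (k, 0))) * two0
    | succ j ih =>
      have h1 := ih (by omega)
      have h2 := h i j hi (by omega)
      unfold curl at h2
      rw [P_v, P_w] at h2
      simp only [sum_range_succ] at h1 ⊢
      linear_combination h2 - h1 + (-(∑ k ∈ range i, a (P E y (k, 0))) * 2 - a (P E y (i, 0)) -
        ∑ l ∈ range j, b (P E y (i, l)) - ∑ l ∈ range j, b (P E y (i + 1, l)) -
        b (P E y (i, j)) - b (P E y (i + 1, j))) * two0
  · simp only [sum_range_succ]
    linear_combination (-∑ k ∈ range i, a (P E y (k, 0)) - ∑ l ∈ range j, b (P E y (i, l))) * two0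

/-- no defect on a segment -/
def Free (a b : Fld d) (y : Fin d → ℤ) (lo hi : ℕ) : Prop :=
  ∀ n, lo ≤ n → n < hi → curl E a b (P E y (n, 0)) = 0

theorem Free.next {a b : Fld d} {y : Fin d → ℤ} {lo hi : ℕ} (β : Arr d)
    (h : Free E a b y (lo + (β (P E y (lo, 0))).1.toNat) (hi + (β (P E y (hi, 0))).1.toNat)) :
    Free E (nA E a b β) (nB E a b β) y lo hi := by
  intro n h1 h2
  rw [curl_next, P_v]
  have a1 : (if (β (P E y (n, 0))).1 then 0 else curl E a b (P E y (n, 0))) = 0 := by
    split_ifs with hb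
    · rfl
    · refine h n ?_ (by omega)
      rcases h1.eq_or_lt with rfl | h1
      · simp [hb]
      · have := Bool.toNat_le (β (P E y (lo, 0))).1
        omega
  have a2 : (if (β (P E y (n + 1, 0))).1 then curl E a b (P E y (n + 1, 0)) else 0) = 0 := by
    split_ifs with hb
    · refine h (n + 1) ?_ ?_
      · have := Bool.toNat_le (β (P E y (lo, 0))).1
        omega
      · rcases (Nat.succ_le_of_lt h2).eq_or_lt with rfl | h3
        · simp [hb]
        · omega
    · rfl
  rw [a1, a2, add_zero]

/-- chance that the dual walks from `p`, `p'` see different opinions after `m` steps -/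
noncomputable def W : ℕ → ℕ × ℕ → ℕ × ℕ → (ℕ × ℕ → ZMod 2) → ℝ≥0∞
  | 0 => fun p p' η => if η p = η p' then 0 else 1
  | m + 1 => fun p p' η => if p = p' then 0 else
      ∑ c : Bool × Bool, ∑ c' : Bool × Bool, 16⁻¹ * W m (mv p c) (mv p' c') η

theorem sum_ofReal (g : Bool × Bool → Bool × Bool → ℝ) (hg : ∀ c c', 0 ≤ g c c') :
    ∑ c : Bool × Bool, ∑ c' : Bool × Bool, 16⁻¹ * ENNReal.ofReal (g c c') =
      ENNReal.ofReal (∑ c, ∑ c', g c c' / 16) := by
  rw [ENNReal.ofReal_sum_of_nonneg
    (fun c _ => sum_nonneg (fun c' _ => div_nonneg (hg c c') (by norm_num)))]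
  refine sum_congr rfl (fun c _ => ?_)
  rw [ENNReal.ofReal_sum_of_nonneg (fun c' _ => div_nonneg (hg c c') (by norm_num))]
  refine sum_congr rfl (fun c' _ => ?_)
  rw [ENNReal.ofReal_div_of_pos (by norm_num), div_eq_mul_inv, mul_comm]
  simp

/-- the function `f` at the difference of two points -/
def at2 (f : ℤ → ℤ → ℝ) (p p' : ℕ × ℕ) : ℝ := f ((p'.1 : ℤ) - p.1) ((p'.2 : ℤ) - p.2)

theorem sum_av (f : ℤ → ℤ → ℝ) (p p' : ℕ × ℕ) :
    ∑ c, ∑ c', at2 f (mv p c) (mv p' c') / 16 = at2 (av f) p p' := by
  have e1 : ∀ x y : ℤ, x + 1 - y = x - y + 1 := fun x y => by ring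
  have e2 : ∀ x y : ℤ, x - (y + 1) = x - y - 1 := fun x y => by ring
  simp only [at2, av, mv, Fintype.sum_prod_type, Fintype.sum_bool, Bool.toNat_false,
    Bool.toNat_true, Nat.cast_add, Nat.cast_one, e2, e1]
  ring_nf

theorem at2_nonneg (m : ℕ) (p p' : ℕ × ℕ) : 0 ≤ at2 (q m) p p' := (q_mem m _ _).1

theorem q_at2 (m : ℕ) (p p' : ℕ × ℕ) :
    at2 (q (m + 1)) p p' = if p = p' then 0 else at2 (av (q m)) p p' := by
  have h : ((p'.1 : ℤ) - p.1 = 0 ∧ (p'.2 : ℤ) - p.2 = 0) ↔ p = p' := by
    rw [Prod.ext_iff]; omega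
  simp only [at2, q_succ, h]

theorem q0_at2 (p p' : ℕ × ℕ) : at2 (q 0) p p' = if p = p' then 0 else 1 := by
  have h : ((p'.1 : ℤ) - p.1 = 0 ∧ (p'.2 : ℤ) - p.2 = 0) ↔ p = p' := by
    rw [Prod.ext_iff]; omega
  simp only [at2, q_zero, h]

theorem W_le (η : ℕ × ℕ → ZMod 2) (m : ℕ) :
    ∀ p p', W m p p' η ≤ ENNReal.ofReal (at2 (q m) p p') := by
  induction m with
  | zero =>
    intro p p'
    rw [q0_at2]
    simp only [W]
    by_cases h : p = p'
    · simp [h]
    · rw [if_neg h]; split_ifs <;> simp
  | succ m ih =>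
    intro p p'
    rw [q_at2]
    simp only [W]
    split_ifs
    · simp
    · rw [← sum_av, ← sum_ofReal _ (fun c c' => at2_nonneg m _ _)]
      exact sum_le_sum (fun c _ => sum_le_sum (fun c' _ => mul_le_mul_right (ih _ _) _))

/-- the chessboard opinions -/
def par (p : ℕ × ℕ) : ZMod 2 := p.1 + p.2

theorem W_par (m : ℕ) : ∀ p p', W (m + 1) p p' par = ENNReal.ofReal (at2 (q m) p p' / 2) := by
  induction m with
  | zero =>
    intro p p'
    rw [q0_at2]
    simp only [W]
    split_ifs
    · simp
    · have h : ∀ c c' : Bool × Bool, (if par (mv p c) = par (mv p' c') then (0 : ℝ≥0∞) else 1) =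
          ENNReal.ofReal (if par p + (c.1.toNat + c.2.toNat) = par p' + (c'.1.toNat + c'.2.toNat)
            then 0 else 1) := by
        intro c c'
        have e : ∀ (p : ℕ × ℕ) (c : Bool × Bool),
            par (mv p c) = par p + (c.1.toNat + c.2.toNat) := by
          intro p c; simp only [par, mv]; push_cast; ring
        rw [e, e]
        split_ifs <;> simp
      simp only [h]
      rw [sum_ofReal _ (fun c c' => by split_ifs <;> norm_num)]
      congr 1
      generalize par p = α
      generalize par p' = α'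
      have h11 : (1 : ZMod 2) + 1 = 0 := rfl
      have h2 : ∀ x : ZMod 2, x = 0 ∨ x = 1 := by decide
      rcases h2 α with rfl | rfl <;> rcases h2 α' with rfl | rfl <;>
        simp [Fintype.sum_prod_type, h11] <;> norm_num
  | succ m ih =>
    intro p p'
    rw [q_at2, W]
    simp only
    split_ifs
    · simp
    · simp only [ih]
      rw [sum_ofReal _ (fun c c' => div_nonneg (at2_nonneg m _ _) (by norm_num)), ← sum_av]
      congr 1
      simp only [sum_div]
      refine sum_congr rfl (fun c _ => sum_congr rfl (fun c' _ => by ring))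

theorem agree_par (y : Fin d → ℤ) (M : ℕ) : Agree E y M (fun _ => 1) (fun _ => 1) par := by
  intro i j _ _
  simp only [par]
  push_cast
  constructor
  · linear_combination (-(i : ZMod 2) - j) * two0
  · linear_combination (-(i : ZMod 2) - j) * two0

end Pool.Agent.Lib.MP_37af32_pr.LG
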