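import Mathlib
import Pool.Agent.Lib.MP_37af32_pr.Defs

-- part Pool.Agent.Lib.MP_37af32_pr.Walk
section

set_option autoImplicit false

namespace Pool.Agent.Lib.MP_37af32_pr

open Filter Topology

/-- probability that the lazy symmetric walk started at `l` has not hit `0` by time `t` -/
noncomputable def surv : ℕ → ℕ → ℝ
  | 0, 0 => 0
  | 0, _ + 1 => 1
  | _ + 1, 0 => 0
  | t + 1, l + 1 => (surv t l + 2 * surv t (l + 1) + surv t (l + 2)) / 4

theorem surv_zero (t : ℕ) : surv t 0 = 0 := by cases t <;> simp [surv]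

theorem surv_succ (t l : ℕ) :
    surv (t + 1) (l + 1) = (surv t l + 2 * surv t (l + 1) + surv t (l + 2)) / 4 := by
  simp [surv]

theorem surv_mem (t : ℕ) : ∀ l, 0 ≤ surv t l ∧ surv t l ≤ 1 := by
  induction t with
  | zero => intro l; cases l <;> simp [surv]
  | succ t ih =>
    intro l
    cases l with
    | zero => simp [surv]
    | succ l =>
      rw [surv_succ]
      have := ih l
      have := ih (l + 1)
      have := ih (l + 2)
      constructor <;> linarith [this.1, this.2]

theorem surv_anti (t : ℕ) : ∀ l, surv (t + 1) l ≤ surv t l := by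
  induction t with
  | zero =>
    intro l
    cases l with
    | zero => simp [surv]
    | succ l => exact (surv_mem 1 (l + 1)).2
  | succ t ih =>
    intro l
    cases l with
    | zero => simp [surv]
    | succ l =>
      have e1 := surv_succ (t + 1) l
      have e2 := surv_succ t l
      have := ih l
      have := ih (l + 1)
      have := ih (l + 2)
      linarith

theorem surv_tendsto : Tendsto (fun t => surv t 1) atTop (𝓝 0) := by
  have hconv : ∀ l, Tendsto (fun t => surv t l) atTop (𝓝 (⨅ t, surv t l)) := by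
    intro l
    apply tendsto_atTop_ciInf (antitone_nat_of_succ_le (fun t => surv_anti t l))
    exact ⟨0, by rintro _ ⟨t, rfl⟩; exact (surv_mem t l).1⟩
  set L : ℕ → ℝ := fun l => ⨅ t, surv t l with hL
  have h0 : L 0 = 0 := by simp [hL, surv_zero]
  have hle : ∀ l, L l ≤ 1 := fun l => le_of_tendsto' (hconv l) (fun t => (surv_mem t l).2)
  have hge : ∀ l, 0 ≤ L l := fun l => ge_of_tendsto' (hconv l) (fun t => (surv_mem t l).1)
  have hrec : ∀ l, L (l + 1) = (L l + 2 * L (l + 1) + L (l + 2)) / 4 := by
    intro l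
    have h1 : Tendsto (fun t => surv (t + 1) (l + 1)) atTop (𝓝 (L (l + 1))) :=
      (hconv (l + 1)).comp (tendsto_add_atTop_nat 1)
    have h2 : Tendsto (fun t => surv (t + 1) (l + 1)) atTop
        (𝓝 ((L l + 2 * L (l + 1) + L (l + 2)) / 4)) := by
      simp only [surv_succ]
      exact (((hconv l).add ((hconv (l + 1)).const_mul 2)).add (hconv (l + 2))).div_const 4
    exact tendsto_nhds_unique h1 h2
  have hlin : ∀ l : ℕ, L l = l * L 1 ∧ L (l + 1) = (l + 1) * L 1 := by
    intro l
    induction l with
    | zero => simp [h0]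
    | succ l ih =>
      have := hrec l
      push_cast
      constructor
      · exact ih.2
      · linarith [ih.1, ih.2]
  have h1 : L 1 = 0 := by
    by_contra hne
    have hpos : 0 < L 1 := lt_of_le_of_ne (hge 1) (Ne.symm hne)
    obtain ⟨n, hn⟩ := exists_nat_gt (1 / L 1)
    rw [div_lt_iff₀ hpos] at hn
    have := hle n
    rw [(hlin n).1] at this
    linarith
  have := hconv 1
  rwa [show (⨅ t, surv t 1) = L 1 from rfl, h1] at this

theorem surv_lower (L : ℝ) (hL : 0 < L) (t : ℕ) : ∀ l : ℕ, (l : ℝ) + t ≤ L → l / L ≤ surv t l := by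
  induction t with
  | zero =>
    intro l hl
    cases l with
    | zero => simp [surv]
    | succ l =>
      simp only [surv]
      rw [div_le_one hL]
      simpa using hl
  | succ t ih =>
    intro l hl
    cases l with
    | zero => simp [surv]
    | succ l =>
      rw [surv_succ]
      push_cast at hl
      have h1 := ih l (by linarith)
      have h2 := ih (l + 1) (by push_cast; linarith)
      have h3 := ih (l + 2) (by push_cast; linarith)
      push_cast at h2 h3 ⊢
      have e : ((l : ℝ) + 1) / L = (l / L + 2 * ((l + 1) / L) + (l + 2) / L) / 4 := by ring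
      rw [e]
      linarith

theorem surv_one_lower (t : ℕ) : 1 / ((t : ℝ) + 1) ≤ surv t 1 := by
  have := surv_lower ((t : ℝ) + 1) (by positivity) t 1 (by push_cast; linarith)
  simpa using this

theorem not_exp (u : ℕ → ℝ) (hu : ∀ t : ℕ, 1 / ((t : ℝ) + 1) ≤ u (t + 1)) (K γ : ℝ) (hγ : γ < 1)
    (h : ∀ t, u t ≤ K * γ ^ t) : False := by
  have hp : ∀ t : ℕ, 1 / ((t : ℝ) + 1) ≤ K * γ ^ (t + 1) := fun t => (hu t).trans (h _)
  have h0 := hp 0
  have h1 := hp 1
  have hγ0 : 0 < γ := by
    by_contra hc
    push Not at hc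
    norm_num at h0 h1
    nlinarith
  have hlim : Tendsto (fun n : ℕ => K * ((n : ℝ) * γ ^ n)) atTop (𝓝 (K * 0)) :=
    (tendsto_self_mul_const_pow_of_lt_one hγ0.le hγ).const_mul K
  have hlim2 := hlim.comp (tendsto_add_atTop_nat 1)
  have : (1 : ℝ) ≤ K * 0 := by
    refine ge_of_tendsto' hlim2 (fun t => ?_)
    have := hp t
    rw [div_le_iff₀ (by positivity)] at this
    simp only [Function.comp]
    push_cast
    linarith
  norm_num at this

end Pool.Agent.Lib.MP_37af32_pr
end

-- part Pool.Agent.Lib.MP_37af32_pr.Main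
section

set_option autoImplicit false

namespace Pool.Agent.Lib.MP_37af32_pr

open MeasureTheory Filter Topology Finset
open scoped ENNReal

variable {d : ℕ}

/-- the direction of motion -/
def e (d : ℕ) : Fin d → ℤ := fun _ => 1

def nb (d : ℕ) : Finset (Fin d → ℤ) := {0, e d}

noncomputable def coin : PMF (Fin 3) :=
  PMF.ofFintype ![0, 2⁻¹, 2⁻¹] (by simp [Fin.sum_univ_three, ENNReal.inv_two_add_inv_two])

/-- symbols: `0` empty, `1` particle that stays, `2` particle that moves by `-e` -/
noncomputable def rule (d : ℕ) (u : nb d → Fin 3) : PMF (Fin 3) :=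
  if u ⟨0, by simp [nb]⟩ = 1 ∨ u ⟨e d, by simp [nb]⟩ = 2 then coin else PMF.pure 0

/-- vacancy indicator at the next step -/
noncomputable def vac (x : Config d 3) (i : Fin d → ℤ) : ℝ≥0∞ :=
  if x i = 1 ∨ x (i + e d) = 2 then 0 else 1

theorem site_zero (x : Config d 3) (i : Fin d → ℤ) :
    (rule d (fun n : nb d => x (i + n))).toMeasure {0} = vac x i := by
  unfold rule vac
  simp only [add_zero]
  split_ifs with h
  · rw [PMF.toMeasure_apply_singleton _ _ MeasurableSet.of_discrete]
    simp [coin]
  · rw [PMF.toMeasure_apply_singleton _ _ MeasurableSet.of_discrete]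
    simp

theorem site_ne (x : Config d 3) (i : Fin d → ℤ) (a : Fin 3) (ha : a ≠ 0) :
    (rule d (fun n : nb d => x (i + n))).toMeasure {a}ᶜ = 2⁻¹ * (1 + vac x i) := by
  unfold rule vac
  simp only [add_zero]
  split_ifs with h
  · rw [PMF.toMeasure_apply_fintype]
    fin_cases a
    · simp at ha
    · simp [coin, Fin.sum_univ_three, Set.indicator]
    · simp [coin, Fin.sum_univ_three, Set.indicator]
  · rw [PMF.toMeasure_pure_apply _ _ MeasurableSet.of_discrete]
    rw [if_pos (by simpa using ha.symm), one_add_one_eq_two,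
      ENNReal.inv_mul_cancel (by norm_num) (by norm_num)]

theorem infinitePi_seq {ι α : Type*} [MeasurableSpace α] [DiscreteMeasurableSpace α]
    (μ : ι → Measure α) [∀ i, IsProbabilityMeasure (μ i)] (φ : ℕ → ι)
    (hφ : Function.Injective φ) (T : ℕ → Set α) (m : ℕ) :
    Measure.infinitePi μ {y | ∀ n < m, y (φ n) ∈ T n} = ∏ n ∈ range m, μ (φ n) (T n) := by
  classical
  have h : {y : ι → α | ∀ n < m, y (φ n) ∈ T n} =
      Set.pi ((range m).image φ : Finset ι) (fun i => {a | ∀ n, φ n = i → a ∈ T n}) := by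
    ext y
    simp only [Set.mem_ofPred_eq, coe_image, coe_range, Set.mem_pi, Set.mem_image, Set.mem_Iio,
      forall_exists_index, and_imp, forall_apply_eq_imp_iff₂]
    constructor
    · intro h n hn n' hn'
      rw [hφ hn']
      exact h n hn
    · intro h n hn
      exact h n hn n rfl
  rw [h, Measure.infinitePi_pi _ (fun _ _ => MeasurableSet.of_discrete),
    Finset.prod_image (fun a _ b _ hab => hφ hab)]
  refine Finset.prod_congr rfl (fun n _ => ?_)
  congr 1
  ext a
  simp only [Set.mem_ofPred_eq]
  constructor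
  · intro h
    exact h n rfl
  · intro h n' hn'
    rw [hφ hn']
    exact h

/-- the `n`-th site on the line through `p` -/
def pt (p : Fin d → ℤ) (n : ℕ) : Fin d → ℤ := p + (n : ℤ) • e d

theorem pt_zero (p : Fin d → ℤ) : pt p 0 = p := by simp [pt]

theorem pt_succ (p : Fin d → ℤ) (n : ℕ) : pt p (n + 1) = pt p n + e d := by
  simp only [pt]; push_cast; rw [add_smul, one_smul, add_assoc]

theorem pt_succ' (p : Fin d → ℤ) (n : ℕ) : pt p (n + 1) = pt (p + e d) n := by
  simp only [pt]; push_cast; rw [add_smul, one_smul]; abel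

theorem pt_inj (hd : 1 ≤ d) (p : Fin d → ℤ) : Function.Injective (pt p) := by
  intro a b h
  have := congrFun h ⟨0, hd⟩
  simpa [pt, e] using this

/-- no particle on the segment now -/
def E (p : Fin d → ℤ) (l : ℕ) : Set (Config d 3) := {x | ∀ n < l, x (pt p n) = 0}

/-- no particle on the segment at the next step -/
def H (p : Fin d → ℤ) (l : ℕ) : Set (Config d 3) :=
  {x | ∀ n < l, ¬ (x (pt p n) = 1 ∨ x (pt p n + e d) = 2)}

theorem measurable_E (p : Fin d → ℤ) (l : ℕ) : MeasurableSet (E p l) := by
  unfold E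
  measurability

theorem measurable_H (p : Fin d → ℤ) (l : ℕ) : MeasurableSet (H p l) := by
  unfold H
  measurability

theorem prod_vac (x : Config d 3) (p : Fin d → ℤ) (l : ℕ) :
    ∏ n ∈ range l, vac x (pt p n) = (H p l).indicator 1 x := by
  by_cases h : x ∈ H p l
  · rw [Set.indicator_of_mem h]
    refine Finset.prod_eq_one (fun n hn => ?_)
    unfold vac
    rw [if_neg (h n (Finset.mem_range.1 hn))]
  · rw [Set.indicator_of_notMem h]
    simp only [H, Set.mem_ofPred_eq, not_forall, not_not] at h
    obtain ⟨n, hn, h⟩ := h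
    refine Finset.prod_eq_zero (Finset.mem_range.2 hn) ?_
    unfold vac
    rw [if_pos h]

theorem step_E (hd : 1 ≤ d) (x : Config d 3) (p : Fin d → ℤ) (l : ℕ) :
    step (nb d) (rule d) x (E p l) = (H p l).indicator 1 x := by
  rw [← prod_vac]
  have := infinitePi_seq
    (fun i : Fin d → ℤ => (rule d (fun n : nb d => x (i + n))).toMeasure) (pt p) (pt_inj hd p)
    (fun _ => {0}) l
  simp only [site_zero] at this
  exact this

theorem step_H (hd : 1 ≤ d) (x : Config d 3) (p : Fin d → ℤ) (l : ℕ) :
    step (nb d) (rule d) x (H p (l + 1)) = 2⁻¹ * 2⁻¹ *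
      ((H (p + e d) l).indicator 1 x + (H p (l + 1)).indicator 1 x +
        (H (p + e d) (l + 1)).indicator 1 x + (H p (l + 2)).indicator 1 x) := by
  have h0 := infinitePi_seq
    (fun i : Fin d → ℤ => (rule d (fun n : nb d => x (i + n))).toMeasure) (pt p) (pt_inj hd p)
    (fun n => if n = 0 then {1}ᶜ else if n = l + 1 then {2}ᶜ else {0}) (l + 2)
  have hset : H p (l + 1) = {y : Config d 3 | ∀ n < l + 2, y (pt p n) ∈
      (if n = 0 then {1}ᶜ else if n = l + 1 then {2}ᶜ else {0} : Set (Fin 3))} := by
    ext y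
    simp only [H, Set.mem_ofPred_eq, ← pt_succ]
    constructor
    · intro h n hn
      split_ifs with h1 h2
      · subst h1
        exact fun hc => h 0 (by omega) (Or.inl hc)
      · subst h2
        exact fun hc => h l (by omega) (Or.inr hc)
      · obtain ⟨m, rfl⟩ : ∃ m, n = m + 1 := ⟨n - 1, by omega⟩
        have a1 := h m (by omega)
        have a2 := h (m + 1) (by omega)
        rw [Set.mem_singleton_iff]
        generalize y (pt p (m + 1)) = a at *
        fin_cases a <;> simp_all
    · intro h n hn hc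
      rcases hc with hc | hc
      · have := h n (by omega)
        split_ifs at this with h1 h2
        · exact this hc
        · omega
        · rw [Set.mem_singleton_iff, hc] at this
          exact absurd this (by decide)
      · have := h (n + 1) (by omega)
        rw [if_neg (Nat.succ_ne_zero n)] at this
        split_ifs at this with h2
        · exact this hc
        · rw [Set.mem_singleton_iff, hc] at this
          exact absurd this (by decide)
  rw [hset]
  unfold step
  rw [h0, ← hset, Finset.prod_range_succ, Finset.prod_range_succ']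
  rw [if_pos rfl, if_neg (Nat.succ_ne_zero l), if_pos rfl, site_ne _ _ _ (by decide),
    site_ne _ _ _ (by decide)]
  have h1 : ∏ k ∈ range l, (rule d (fun n : nb d => x (pt p (k + 1) + n))).toMeasure
      (if k + 1 = 0 then {1}ᶜ else if k + 1 = l + 1 then {2}ᶜ else {0}) =
      ∏ k ∈ range l, vac x (pt p (k + 1)) := by
    refine Finset.prod_congr rfl (fun k hk => ?_)
    rw [Finset.mem_range] at hk
    rw [if_neg (Nat.succ_ne_zero k), if_neg (by omega), site_zero]
  rw [h1]
  simp only [← prod_vac, ← pt_succ']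
  rw [Finset.prod_range_succ' _ l, Finset.prod_range_succ _ l, Finset.prod_range_succ _ (l + 1),
    Finset.prod_range_succ' _ l]
  ring

theorem Phi_E (hd : 1 ≤ d) (μ : ProbabilityMeasure (Config d 3)) (p : Fin d → ℤ) (l : ℕ) :
    (Phi (nb d) (rule d) μ : Measure (Config d 3)) (E p l) = (μ : Measure (Config d 3)) (H p l) := by
  show ((μ : Measure (Config d 3)).bind (step (nb d) (rule d))) (E p l) = _
  rw [Measure.bind_apply (measurable_E p l) (measurable_step _ _).aemeasurable]
  simp only [step_E hd]
  rw [lintegral_indicator_one (measurable_H p l)]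

theorem Phi_H (hd : 1 ≤ d) (μ : ProbabilityMeasure (Config d 3)) (p : Fin d → ℤ) (l : ℕ) :
    (Phi (nb d) (rule d) μ : Measure (Config d 3)).real (H p (l + 1)) =
      ((μ : Measure (Config d 3)).real (H (p + e d) l) +
        (μ : Measure (Config d 3)).real (H p (l + 1)) +
        (μ : Measure (Config d 3)).real (H (p + e d) (l + 1)) +
        (μ : Measure (Config d 3)).real (H p (l + 2))) / 4 := by
  have h : (Phi (nb d) (rule d) μ : Measure (Config d 3)) (H p (l + 1)) = 2⁻¹ * 2⁻¹ *
      ((μ : Measure (Config d 3)) (H (p + e d) l) + (μ : Measure (Config d 3)) (H p (l + 1)) +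
        (μ : Measure (Config d 3)) (H (p + e d) (l + 1)) +
        (μ : Measure (Config d 3)) (H p (l + 2))) := by
    show ((μ : Measure (Config d 3)).bind (step (nb d) (rule d))) (H p (l + 1)) = _
    rw [Measure.bind_apply (measurable_H p _) (measurable_step _ _).aemeasurable]
    simp only [step_H hd]
    have hm : ∀ (p : Fin d → ℤ) (l : ℕ),
        Measurable ((H p l).indicator (1 : Config d 3 → ℝ≥0∞)) :=
      fun p l => measurable_one.indicator (measurable_H p l)
    rw [lintegral_const_mul' _ _ (by finiteness),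
      lintegral_add_right _ (hm _ _), lintegral_add_right _ (hm _ _),
      lintegral_add_right _ (hm _ _)]
    simp only [lintegral_indicator_one (measurable_H _ _)]
  simp only [Measure.real]
  rw [h, ENNReal.toReal_mul, ENNReal.toReal_add (by finiteness) (by finiteness),
    ENNReal.toReal_add (by finiteness) (by finiteness),
    ENNReal.toReal_add (by finiteness) (by finiteness)]
  simp only [ENNReal.toReal_mul, ENNReal.toReal_inv, ENNReal.toReal_ofNat]
  ring

theorem H_zero (p : Fin d → ℤ) : H p 0 = Set.univ := by simp [H]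

theorem iter_lower (hd : 1 ≤ d) (μ : ProbabilityMeasure (Config d 3)) (t : ℕ) :
    ∀ (p : Fin d → ℤ) (l : ℕ),
      1 - surv t l ≤ ((Phi (nb d) (rule d))^[t] μ : Measure (Config d 3)).real (H p l) := by
  induction t with
  | zero =>
    intro p l
    cases l with
    | zero => simp [H_zero, surv]
    | succ l => simp [surv]
  | succ t ih =>
    intro p l
    cases l with
    | zero => simp [H_zero, surv]
    | succ l =>
      rw [Function.iterate_succ_apply', Phi_H hd, surv_succ]
      have := ih (p + e d) l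
      have := ih p (l + 1)
      have := ih (p + e d) (l + 1)
      have := ih p (l + 2)
      linarith

/-- point mass at a configuration -/
noncomputable def pm (x : Config d 3) : ProbabilityMeasure (Config d 3) :=
  ⟨Measure.dirac x, inferInstance⟩

theorem pm_coe (x : Config d 3) : (pm x : Measure (Config d 3)) = Measure.dirac x := rfl

theorem pm_real_of_mem (x : Config d 3) (s : Set (Config d 3)) (hs : MeasurableSet s)
    (h : x ∈ s) : (pm x : Measure (Config d 3)).real s = 1 := by
  rw [pm_coe, Measure.real, Measure.dirac_apply' _ hs, Set.indicator_of_mem h]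
  simp

theorem pm_real_of_notMem (x : Config d 3) (s : Set (Config d 3)) (hs : MeasurableSet s)
    (h : x ∉ s) : (pm x : Measure (Config d 3)).real s = 0 := by
  rw [pm_coe, Measure.real, Measure.dirac_apply' _ hs, Set.indicator_of_notMem h]
  simp

theorem iter_full (hd : 1 ≤ d) (t : ℕ) :
    ∀ (p : Fin d → ℤ) (l : ℕ),
      ((Phi (nb d) (rule d))^[t] (pm (fun _ => 1)) : Measure (Config d 3)).real (H p l) =
        1 - surv t l := by
  induction t with
  | zero =>
    intro p l
    cases l with
    | zero => rw [H_zero, probReal_univ, surv_zero, sub_zero]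
    | succ l =>
      have : (fun _ => 1 : Config d 3) ∉ H p (l + 1) := fun h => h 0 (by omega) (Or.inl rfl)
      rw [Function.iterate_zero_apply, pm_real_of_notMem _ _ (measurable_H _ _) this]
      simp [surv]
  | succ t ih =>
    intro p l
    cases l with
    | zero => rw [H_zero, probReal_univ, surv_zero, sub_zero]
    | succ l =>
      rw [Function.iterate_succ_apply', Phi_H hd, surv_succ]
      have := ih (p + e d) l
      have := ih p (l + 1)
      have := ih (p + e d) (l + 1)
      have := ih p (l + 2)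
      linarith

theorem E_one (i : Fin d → ℤ) : E i 1 = {x : Config d 3 | x i ≠ 0}ᶜ := by
  ext x
  simp [E, pt_zero]

theorem occ_le (hd : 1 ≤ d) (μ : ProbabilityMeasure (Config d 3)) (t : ℕ) (i : Fin d → ℤ) :
    ((Phi (nb d) (rule d))^[t + 1] μ : Measure (Config d 3)).real {x | x i ≠ 0} ≤ surv t 1 := by
  have h1 := iter_lower hd μ t i 1
  have h2 : ((Phi (nb d) (rule d))^[t + 1] μ : Measure (Config d 3)).real (E i 1) =
      ((Phi (nb d) (rule d))^[t] μ : Measure (Config d 3)).real (H i 1) := by
    rw [Function.iterate_succ_apply']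
    simp only [Measure.real]
    rw [Phi_E hd]
  rw [← h2, E_one, probReal_compl_eq_one_sub (by measurability)] at h1
  linarith

theorem local_dev (ν : Measure (Config d 3)) [IsProbabilityMeasure ν] (C : Set (Config d 3))
    (hC : MeasurableSet C) (D : Finset (Fin d → ℤ))
    (hD : ∀ x y : Config d 3, (∀ i ∈ D, x i = y i) → x ∈ C → y ∈ C) :
    |ν.real C - (Measure.dirac (fun _ => 0 : Config d 3)).real C| ≤
      ∑ i ∈ D, ν.real {x | x i ≠ 0} := by
  have hB : ν.real (⋃ i ∈ D, {x : Config d 3 | x i ≠ 0}) ≤ ∑ i ∈ D, ν.real {x | x i ≠ 0} :=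
    measureReal_biUnion_finset_le _ _
  refine le_trans ?_ hB
  have hx : ∀ x : Config d 3, x ∉ (⋃ i ∈ D, {x : Config d 3 | x i ≠ 0}) → ∀ i ∈ D, x i = 0 := by
    intro x hx i hi
    by_contra hc
    exact hx (Set.mem_biUnion hi hc)
  by_cases h0 : (fun _ => 0 : Config d 3) ∈ C
  · have h1 : (Measure.dirac (fun _ => 0 : Config d 3)).real C = 1 := by
      simp [Measure.real, Measure.dirac_apply' _ hC, h0]
    have h2 : ν.real Cᶜ ≤ ν.real (⋃ i ∈ D, {x : Config d 3 | x i ≠ 0}) := by
      apply measureReal_mono _ (measure_ne_top _ _)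
      intro x hxc
      by_contra hc
      exact hxc (hD _ x (fun i hi => (hx x hc i hi).symm) h0)
    rw [probReal_compl_eq_one_sub hC] at h2
    have h3 : ν.real C ≤ 1 := measureReal_le_one
    rw [h1, abs_of_nonpos (by linarith)]
    linarith
  · have h1 : (Measure.dirac (fun _ => 0 : Config d 3)).real C = 0 := by
      simp [Measure.real, Measure.dirac_apply' _ hC, h0]
    rw [h1, sub_zero, abs_of_nonneg measureReal_nonneg]
    apply measureReal_mono _ (measure_ne_top _ _)
    intro x hxc
    by_contra hc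
    exact h0 (hD x _ (fun i hi => hx x hc i hi) hxc)

theorem iter_dev (hd : 1 ≤ d) (μ : ProbabilityMeasure (Config d 3)) (t : ℕ)
    (C : Set (Config d 3)) (hC : MeasurableSet C) (D : Finset (Fin d → ℤ))
    (hD : ∀ x y : Config d 3, (∀ i ∈ D, x i = y i) → x ∈ C → y ∈ C) :
    |(((Phi (nb d) (rule d))^[t + 1] μ) C : ℝ) - (pm (fun _ => 0 : Config d 3) C : ℝ)| ≤
      D.card * surv t 1 := by
  rw [← ProbabilityMeasure.measureReal_eq_coe_coeFn, ← ProbabilityMeasure.measureReal_eq_coe_coeFn]
  refine (local_dev _ C hC D hD).trans ?_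
  refine (Finset.sum_le_sum (fun i _ => occ_le hd μ t i)).trans ?_
  simp

theorem measurable_cyl {q : ℕ} (D : Finset (Fin d → ℤ)) (w : D → Fin q) :
    MeasurableSet (cyl D w) := by
  unfold cyl
  measurability

theorem unif (hd : 1 ≤ d) : UniformlyErgodic (Phi (nb d) (rule d)) (pm (fun _ => 0)) := by
  intro D w ε hε
  have h1 : Tendsto (fun t => (D.card : ℝ) * surv t 1) atTop (𝓝 (D.card * 0)) :=
    surv_tendsto.const_mul _
  rw [mul_zero] at h1
  obtain ⟨T, hT⟩ := eventually_atTop.1 (h1.eventually (ge_mem_nhds hε))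
  refine ⟨T + 1, fun t ht μ => ?_⟩
  obtain ⟨s, rfl⟩ : ∃ s, t = s + 1 := ⟨t - 1, by omega⟩
  refine (iter_dev hd μ s _ (measurable_cyl D w) D ?_).trans (hT s (by omega))
  intro x y hxy hx i
  rw [← hxy i i.2]
  exact hx i

theorem conv (hd : 1 ≤ d) (μ : ProbabilityMeasure (Config d 3)) :
    Tendsto (fun t : ℕ => (Phi (nb d) (rule d))^[t] μ) atTop (𝓝 (pm (fun _ => 0))) := by
  let S : Set (Set (Config d 3)) := {C | MeasurableSet C ∧ ∃ D : Finset (Fin d → ℤ),
    ∀ x y : Config d 3, (∀ i ∈ D, x i = y i) → x ∈ C → y ∈ C}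
  have hS : IsPiSystem S := by
    rintro C ⟨hC, D, hD⟩ C' ⟨hC', D', hD'⟩ -
    refine ⟨hC.inter hC', D ∪ D', fun x y hxy hx => ⟨?_, ?_⟩⟩
    · exact hD x y (fun i hi => hxy i (Finset.mem_union_left _ hi)) hx.1
    · exact hD' x y (fun i hi => hxy i (Finset.mem_union_right _ hi)) hx.2
  refine hS.tendsto_probabilityMeasure_of_tendsto_of_mem (fun s hs => hs.1) ?_ ?_
  · intro u hu x hx
    obtain ⟨I, v, h1, h2⟩ := isOpen_pi_iff.1 hu x hx
    refine ⟨(I : Set (Fin d → ℤ)).pi v, ⟨?_, I, ?_⟩, ?_, h2⟩
    · exact MeasurableSet.pi I.countable_toSet (fun _ _ => MeasurableSet.of_discrete)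
    · intro x y hxy hx i hi
      rw [← hxy i hi]
      exact hx i hi
    · exact (isOpen_set_pi I.finite_toSet (fun a ha => (h1 a ha).1)).mem_nhds
        (fun a ha => (h1 a ha).2)
  · rintro C ⟨hC, D, hD⟩
    rw [← NNReal.tendsto_coe, ← tendsto_add_atTop_iff_nat 1, tendsto_iff_dist_tendsto_zero]
    have h1 : Tendsto (fun t => (D.card : ℝ) * surv t 1) atTop (𝓝 (D.card * 0)) :=
      surv_tendsto.const_mul _
    rw [mul_zero] at h1
    exact squeeze_zero (fun _ => dist_nonneg) (fun t => iter_dev hd μ t C hC D hD) h1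

theorem inv : Phi (nb d) (rule d) (pm (fun _ => 0)) = pm (fun _ => 0) := by
  apply Subtype.ext
  show (Measure.dirac (fun _ => 0 : Config d 3)).bind (step (nb d) (rule d)) = Measure.dirac _
  rw [Measure.dirac_bind (measurable_step _ _)]
  have : (fun i : Fin d → ℤ =>
      (rule d (fun n : nb d => (fun _ => 0 : Config d 3) (i + n))).toMeasure) =
      fun i : Fin d → ℤ => Measure.dirac ((fun _ => 0 : Config d 3) i) := by
    funext i
    unfold rule
    rw [if_neg (by simp), PMF.toMeasure_pure]
  unfold step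
  rw [this]
  exact Measure.infinitePi_dirac _

theorem ergodic (hd : 1 ≤ d) : ErgodicTo (Phi (nb d) (rule d)) (pm (fun _ => 0)) := by
  refine ⟨inv, fun ν hν => ?_, conv hd⟩
  have h := conv hd ν
  simp only [Function.iterate_fixed hν] at h
  exact tendsto_nhds_unique tendsto_const_nhds h

theorem dev_full (hd : 1 ≤ d) (t : ℕ) :
    dev (Phi (nb d) (rule d)) (pm (fun _ => 0)) (pm (fun _ => 1)) (t + 1) {0} (fun _ => 0) =
      surv t 1 := by
  have hc : cyl ({0} : Finset (Fin d → ℤ)) (fun _ => (0 : Fin 3)) = E 0 1 := by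
    ext x
    simp [cyl, E, pt_zero]
  unfold dev
  rw [hc, ← ProbabilityMeasure.measureReal_eq_coe_coeFn,
    ← ProbabilityMeasure.measureReal_eq_coe_coeFn, Function.iterate_succ_apply']
  have h1 : (Phi (nb d) (rule d) ((Phi (nb d) (rule d))^[t] (pm (fun _ => 1))) :
      Measure (Config d 3)).real (E 0 1) = 1 - surv t 1 := by
    rw [← iter_full hd t 0 1]
    simp only [Measure.real]
    rw [Phi_E hd]
  have h2 : (pm (fun _ => 0 : Config d 3) : Measure (Config d 3)).real (E 0 1) = 1 := by
    have : (fun _ => 0 : Config d 3) ∈ E 0 1 := fun _ _ => rfl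
    exact pm_real_of_mem _ _ (measurable_E _ _) this
  rw [h1, h2, sub_sub_cancel_left, abs_neg, abs_of_nonneg (surv_mem t 1).1]

theorem not_weakExp (hd : 1 ≤ d) : ¬ WeakExpConv (Phi (nb d) (rule d)) (pm (fun _ => 0)) := by
  intro h
  obtain ⟨K, γ, hγ, hK⟩ := h {0} (fun _ => 0) (pm (fun _ => 1))
  refine not_exp _ (fun t => ?_) K γ hγ hK
  rw [dev_full hd]
  exact surv_one_lower t

theorem not_exp' (hd : 1 ≤ d) : ¬ ExpConv (Phi (nb d) (rule d)) (pm (fun _ => 0)) := by
  intro h
  apply not_weakExp hd
  intro D w μ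
  obtain ⟨K, γ, hγ, hK⟩ := h D w
  exact ⟨K, γ, hγ, fun t => hK t μ⟩

end Pool.Agent.Lib.MP_37af32_pr
end
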