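import Mathlib
import Pool.Agent.Lib.MP_37af32_pr.Main
import Pool.Agent.Lib.MP_37af32_pr.LGDet

/-!
The automaton: each site holds two values of the form and a fresh uniform arrow.
-/

set_option autoImplicit false

namespace Pool.Agent.Lib.MP_37af32_pr.LG

open MeasureTheory Finset
open scoped ENNReal

variable {d : ℕ} (E : Dir d)

noncomputable def enc : (ZMod 2 × ZMod 2) × (Bool × Bool) ≃ Fin 16 :=
  Fintype.equivFinOfCardEq (by simp)

noncomputable def mk (a b : Fld d) (β : Arr d) : Config d 16 := fun i => enc ((a i, b i), β i)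

noncomputable def fa (x : Config d 16) : Fld d := fun i => (enc.symm (x i)).1.1

noncomputable def fb (x : Config d 16) : Fld d := fun i => (enc.symm (x i)).1.2

noncomputable def ar (x : Config d 16) : Arr d := fun i => (enc.symm (x i)).2

noncomputable def A (x : Config d 16) : Fld d := nA E (fa x) (fb x) (ar x)

noncomputable def B (x : Config d 16) : Fld d := nB E (fa x) (fb x) (ar x)

theorem mk_parts (a b : Fld d) (β : Arr d) :
    fa (mk a b β) = a ∧ fb (mk a b β) = b ∧ ar (mk a b β) = β := by
  refine ⟨?_, ?_, ?_⟩ <;> funext i <;> simp [fa, fb, ar, mk]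

theorem A_mk (a b : Fld d) (β : Arr d) : A E (mk a b β) = nA E a b β := by
  unfold A; rw [(mk_parts a b β).1, (mk_parts a b β).2.1, (mk_parts a b β).2.2]

theorem B_mk (a b : Fld d) (β : Arr d) : B E (mk a b β) = nB E a b β := by
  unfold B; rw [(mk_parts a b β).1, (mk_parts a b β).2.1, (mk_parts a b β).2.2]

/-- the neighbourhood -/
def nbh : Finset (Fin d → ℤ) := {0, E.v, E.v + E.v, E.w, E.w + E.v}

noncomputable def ext (u : nbh E → Fin 16) : Config d 16 :=
  fun n => if h : n ∈ nbh E then u ⟨n, h⟩ else 0

noncomputable def lph (p p' : Fin 16) : ZMod 2 :=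
  (if (enc.symm p).2.1 then (enc.symm p).1.1 else 0) + (if (enc.symm p).2.2 then
    (if (enc.symm p).2.1 then (enc.symm p').1.2 else (enc.symm p).1.2) else 0)

noncomputable def lcu (p p' p'' : Fin 16) : ZMod 2 :=
  if (enc.symm p).2.1 then
    (enc.symm p).1.1 + (enc.symm p').1.2 + (enc.symm p'').1.1 + (enc.symm p).1.2 else 0

theorem A_eq (x : Config d 16) (i : Fin d → ℤ) : A E x i = (enc.symm (x i)).1.1 +
    lph (x i) (x (i + E.v)) + lph (x (i + E.v)) (x (i + E.v + E.v)) := rfl

theorem B_eq (x : Config d 16) (i : Fin d → ℤ) : B E x i = (enc.symm (x i)).1.2 +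
    lph (x i) (x (i + E.v)) + lph (x (i + E.w)) (x (i + E.w + E.v)) +
    lcu (x i) (x (i + E.v)) (x (i + E.w)) := rfl

theorem AB_local (x : Config d 16) (i : Fin d → ℤ) :
    A E (ext E (fun n => x (i + n))) 0 = A E x i ∧ B E (ext E (fun n => x (i + n))) 0 = B E x i := by
  have h : ∀ n ∈ nbh E, ext E (fun n => x (i + n)) n = x (i + n) := fun n hn => dif_pos hn
  have h0 := h 0 (by simp [nbh])
  have h1 := h E.v (by simp [nbh])
  have h2 := h (E.v + E.v) (by simp [nbh])
  have h3 := h E.w (by simp [nbh])
  have h4 := h (E.w + E.v) (by simp [nbh])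
  simp only [A_eq, B_eq, zero_add, h0, h1, h2, h3, h4, add_zero, add_assoc i, and_self]

theorem measurable_AB {γ : Type} [MeasurableSpace γ] (g : ZMod 2 → ZMod 2 → γ) (i : Fin d → ℤ) :
    Measurable (fun x : Config d 16 => g (A E x i) (B E x i)) := by
  have : (fun x : Config d 16 => g (A E x i) (B E x i)) =
      (fun u : nbh E → Fin 16 => g (A E (ext E u) 0) (B E (ext E u) 0)) ∘
        (fun x : Config d 16 => fun n : nbh E => x (i + n)) := by
    funext x
    simp only [Function.comp, (AB_local E x i).1, (AB_local E x i).2]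
  rw [this]
  exact Measurable.of_discrete.comp (measurable_pi_lambda _ (fun n => measurable_pi_apply _))

/-- the local rule -/
noncomputable def rl (u : nbh E → Fin 16) : PMF (Fin 16) :=
  (PMF.uniformOfFintype (Bool × Bool)).map
    (fun c => enc ((A E (ext E u) 0, B E (ext E u) 0), c))

/-- independent uniform arrows -/
noncomputable def nu (d : ℕ) : Measure (Arr d) :=
  Measure.infinitePi (fun _ => (PMF.uniformOfFintype (Bool × Bool)).toMeasure)

theorem nu_prob : IsProbabilityMeasure (nu d) := by unfold nu; infer_instance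

theorem measurable_mk (a b : Fld d) : Measurable (mk a b) :=
  measurable_pi_lambda _ (fun i =>
    (Measurable.of_discrete (f := fun c => enc ((a i, b i), c))).comp (measurable_pi_apply i))

theorem step_eq (x : Config d 16) :
    step (nbh E) (rl E) x = (nu d).map (mk (A E x) (B E x)) := by
  have h := Measure.infinitePi_map_pi
    (fun _ : Fin d → ℤ => (PMF.uniformOfFintype (Bool × Bool)).toMeasure)
    (f := fun i c => enc ((A E x i, B E x i), c)) (fun i => Measurable.of_discrete)
  refine Eq.trans ?_ h.symm
  unfold step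
  congr 1
  funext i
  unfold rl
  rw [(AB_local E x i).1, (AB_local E x i).2, PMF.toMeasure_map _ _ Measurable.of_discrete]

/-- the action on functions -/
noncomputable def T (F : Config d 16 → ℝ≥0∞) (x : Config d 16) : ℝ≥0∞ :=
  ∫⁻ y, F y ∂(step (nbh E) (rl E) x)

theorem measurable_T {F : Config d 16 → ℝ≥0∞} (hF : Measurable F) : Measurable (T E F) :=
  (Measure.measurable_lintegral hF).comp (measurable_step _ _)

theorem measurable_iter {F : Config d 16 → ℝ≥0∞} (hF : Measurable F) (m : ℕ) :
    Measurable ((T E)^[m] F) := by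
  induction m with
  | zero => exact hF
  | succ m ih => rw [Function.iterate_succ_apply']; exact measurable_T E ih

theorem T_eq {F : Config d 16 → ℝ≥0∞} (hF : Measurable F) (x : Config d 16) :
    T E F x = ∫⁻ β, F (mk (A E x) (B E x) β) ∂(nu d) := by
  unfold T
  rw [step_eq, lintegral_map hF (measurable_mk _ _)]

theorem iter_le_one {F : Config d 16 → ℝ≥0∞} (hF : ∀ x, F x ≤ 1) (m : ℕ) :
    ∀ x, (T E)^[m] F x ≤ 1 := by
  induction m with
  | zero => exact hF
  | succ m ih =>
    intro x
    rw [Function.iterate_succ_apply']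
    refine (lintegral_mono ih).trans ?_
    simp

theorem lint_Phi {F : Config d 16 → ℝ≥0∞} (hF : Measurable F)
    (μ : ProbabilityMeasure (Config d 16)) :
    ∫⁻ x, F x ∂(Phi (nbh E) (rl E) μ : Measure (Config d 16)) =
      ∫⁻ x, T E F x ∂(μ : Measure (Config d 16)) :=
  Measure.lintegral_bind (measurable_step _ _).aemeasurable hF.aemeasurable

theorem lint_iter {F : Config d 16 → ℝ≥0∞} (hF : Measurable F) (m : ℕ) :
    ∀ μ : ProbabilityMeasure (Config d 16),
      ∫⁻ x, F x ∂((Phi (nbh E) (rl E))^[m] μ : Measure (Config d 16)) =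
        ∫⁻ x, (T E)^[m] F x ∂(μ : Measure (Config d 16)) := by
  induction m with
  | zero => intro μ; rfl
  | succ m ih =>
    intro μ
    rw [Function.iterate_succ_apply, ih, lint_Phi E (measurable_iter E hF m),
      Function.iterate_succ_apply']

theorem nu_one (y : Fin d → ℤ) (c : Bool × Bool) : nu d {β | β y = c} = 4⁻¹ := by
  have h : {β : Arr d | β y = c} = Set.pi ({y} : Finset (Fin d → ℤ)) (fun _ => {c}) := by
    ext β; simp
  unfold nu
  rw [h, Measure.infinitePi_pi _ (fun _ _ => MeasurableSet.of_discrete), prod_singleton,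
    PMF.toMeasure_apply_singleton _ _ MeasurableSet.of_discrete]
  simp

theorem nu_two {y z : Fin d → ℤ} (hyz : y ≠ z) (c c' : Bool × Bool) :
    nu d {β | β y = c ∧ β z = c'} = 16⁻¹ := by
  have h : {β : Arr d | β y = c ∧ β z = c'} =
      Set.pi ({y, z} : Finset (Fin d → ℤ)) (fun i => {if i = y then c else c'}) := by
    ext β; simp [hyz.symm]
  unfold nu
  rw [h, Measure.infinitePi_pi _ (fun _ _ => MeasurableSet.of_discrete), prod_pair hyz,
    PMF.toMeasure_apply_singleton _ _ MeasurableSet.of_discrete,
    PMF.toMeasure_apply_singleton _ _ MeasurableSet.of_discrete]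
  simp only [PMF.uniformOfFintype_apply, Fintype.card_prod, Fintype.card_bool]
  rw [← ENNReal.mul_inv (by simp) (by simp)]
  norm_num

theorem measurable_two (y z : Fin d → ℤ) (G : Bool × Bool → Bool × Bool → ℝ≥0∞) :
    Measurable (fun β : Arr d => G (β y) (β z)) :=
  (Measurable.of_discrete (f := fun c : (Bool × Bool) × (Bool × Bool) => G c.1 c.2)).comp
    (f := fun β : Arr d => (β y, β z)) ((measurable_pi_apply y).prodMk (measurable_pi_apply z))

theorem lint_two {y z : Fin d → ℤ} (hyz : y ≠ z) (G : Bool × Bool → Bool × Bool → ℝ≥0∞) :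
    ∫⁻ β, G (β y) (β z) ∂(nu d) = ∑ c, ∑ c', 16⁻¹ * G c c' := by
  have hm : ∀ c c' : Bool × Bool, MeasurableSet {β : Arr d | β y = c ∧ β z = c'} := by
    intro c c'
    measurability
  have h : ∀ β : Arr d, G (β y) (β z) =
      ∑ c, ∑ c', {β : Arr d | β y = c ∧ β z = c'}.indicator (fun _ => G c c') β := by
    intro β
    rw [sum_eq_single (β y), sum_eq_single (β z)]
    · simp
    · intro c' _ hc; simp [hc.symm]
    · simp
    · intro c _ hc; simp [hc.symm]
    · simp
  simp only [h]
  rw [lintegral_finsetSum _ (fun c _ => Finset.measurable_sum _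
    (fun c' _ => measurable_const.indicator (hm c c')))]
  refine sum_congr rfl (fun c _ => ?_)
  rw [lintegral_finsetSum _ (fun c' _ => measurable_const.indicator (hm c c'))]
  refine sum_congr rfl (fun c' _ => ?_)
  rw [lintegral_indicator_const (hm c c'), nu_two hyz, mul_comm]

theorem measurable_W (y : Fin d → ℤ) (η : ℕ × ℕ → ZMod 2) (m : ℕ) :
    ∀ p p', Measurable (fun β : Arr d => W m p p' (pull E y β η)) := by
  induction m with
  | zero => exact fun p p' => measurable_two _ _ (fun c c' => W 0 (mv p c) (mv p' c') η)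
  | succ m ih =>
    intro p p'
    simp only [W]
    split_ifs
    · exact measurable_const
    · exact Finset.measurable_sum _ (fun c _ => Finset.measurable_sum _
        (fun c' _ => (ih _ _).const_mul _))

theorem lint_W (y : Fin d → ℤ) (η : ℕ × ℕ → ZMod 2) (m : ℕ) :
    ∀ p p', ∫⁻ β, W m p p' (pull E y β η) ∂(nu d) = W (m + 1) p p' η := by
  induction m with
  | zero =>
    intro p p'
    by_cases h : p = p'
    · simp [W, h]
    · refine (lint_two (fun e => h (P_inj E y e)) (fun c c' => W 0 (mv p c) (mv p' c') η)).trans ?_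
      exact (if_neg h).symm
  | succ m ih =>
    intro p p'
    by_cases h : p = p'
    · simp [W, h]
    · rw [W, W]
      simp only [if_neg h]
      rw [lintegral_finsetSum _ (fun c _ => Finset.measurable_sum _
        (fun c' _ => (measurable_W E y η m _ _).const_mul _))]
      refine sum_congr rfl (fun c _ => ?_)
      rw [lintegral_finsetSum _ (fun c' _ => (measurable_W E y η m _ _).const_mul _)]
      refine sum_congr rfl (fun c' _ => ?_)
      rw [lintegral_const_mul _ (measurable_W E y η m _ _), ih]

/-- duality with the pair of walks on a square without defects -/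
theorem voter {F : Config d 16 → ℝ≥0∞} (hF : Measurable F) (y : Fin d → ℤ) (p' : ℕ × ℕ)
    (h0 : ∀ x η, Agree E y 0 (A E x) (B E x) η → F x = W 0 (0, 0) p' η) (m : ℕ) :
    ∀ x η, Agree E y (2 * m) (A E x) (B E x) η → (T E)^[m] F x = W m (0, 0) p' η := by
  induction m with
  | zero => exact h0
  | succ m ih =>
    intro x η h
    rw [Function.iterate_succ_apply', T_eq E (measurable_iter E hF m), ← lint_W E y]
    refine lintegral_congr (fun β => ih _ _ ?_)
    rw [A_mk, B_mk]
    exact Agree.next E h β

open Classical in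
/-- indicator of a defect on a segment at the next step -/
noncomputable def L (y : Fin d → ℤ) (lo hi : ℕ) (x : Config d 16) : ℝ≥0∞ :=
  if Free E (A E x) (B E x) y lo hi then 0 else 1

theorem measurable_L (y : Fin d → ℤ) (lo hi : ℕ) : Measurable (L E y lo hi) := by
  refine Measurable.ite ?_ measurable_const measurable_const
  have hc : ∀ i, Measurable (fun x : Config d 16 => curl E (A E x) (B E x) i) := fun i =>
    (((measurable_AB E (fun a _ => a) i).add (measurable_AB E (fun _ b => b) (i + E.v))).add
      (measurable_AB E (fun a _ => a) (i + E.w))).add (measurable_AB E (fun _ b => b) i)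
  have : {x : Config d 16 | Free E (A E x) (B E x) y lo hi} = ⋂ n, ⋂ (_ : lo ≤ n), ⋂ (_ : n < hi),
      (fun x : Config d 16 => curl E (A E x) (B E x) (P E y (n, 0))) ⁻¹' {0} := by
    ext x; simp [Free]
  rw [this]
  exact MeasurableSet.iInter (fun n => MeasurableSet.iInter (fun _ => MeasurableSet.iInter
    (fun _ => hc _ (MeasurableSet.singleton 0))))

theorem T_L (y : Fin d → ℤ) {lo hi : ℕ} (h : lo ≠ hi) (x : Config d 16) :
    T E (L E y lo hi) x ≤
      ∑ c : Bool × Bool, ∑ c' : Bool × Bool, 16⁻¹ * L E y (lo + c.1.toNat) (hi + c'.1.toNat) x := by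
  rw [T_eq E (measurable_L E y lo hi), ← lint_two (y := P E y (lo, 0)) (z := P E y (hi, 0))
    (fun e => h (congrArg Prod.fst (P_inj E y e)))
    (fun c c' => L E y (lo + c.1.toNat) (hi + c'.1.toNat) x)]
  refine lintegral_mono (fun β => ?_)
  simp only [L]
  split_ifs with h1 h2 h2
  · exact le_rfl
  · exact zero_le
  · rw [A_mk, B_mk] at h1
    exact absurd (Free.next E β h2) h1
  · exact le_rfl

/-- the defects are dominated by coalescing walks -/
theorem lint_L (μ : ProbabilityMeasure (Config d 16)) (y : Fin d → ℤ) (t : ℕ) : ∀ lo l : ℕ,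
    ∫⁻ x, L E y lo (lo + l) x ∂((Phi (nbh E) (rl E))^[t] μ : Measure (Config d 16)) ≤
      ENNReal.ofReal (surv t l) := by
  have hz : ∀ lo x, L E y lo (lo + 0) x = 0 := fun lo x =>
    if_pos (fun n h1 h2 => absurd h1 (by omega))
  induction t with
  | zero =>
    intro lo l
    cases l with
    | zero => simp only [hz, lintegral_zero, zero_le]
    | succ l =>
      refine (lintegral_mono (g := fun _ => 1) (fun x => ?_)).trans (by simp [surv])
      unfold L
      split_ifs <;> simp
  | succ t ih =>
    intro lo l
    cases l with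
    | zero => simp only [hz, lintegral_zero, zero_le]
    | succ l =>
      rw [Function.iterate_succ_apply', lint_Phi E (measurable_L E _ _ _)]
      refine (lintegral_mono (T_L E y (by omega))).trans ?_
      rw [lintegral_finsetSum _ (fun c _ => Finset.measurable_sum _
        (fun c' _ => (measurable_L E _ _ _).const_mul _))]
      have e : surv (t + 1) (l + 1) = ∑ c : Bool × Bool, ∑ c' : Bool × Bool,
          surv t (l + 1 + c'.1.toNat - c.1.toNat) / 16 := by
        rw [surv_succ]
        simp only [Fintype.sum_prod_type, Fintype.sum_bool, Bool.toNat_false, Bool.toNat_true,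
          Nat.add_sub_cancel, Nat.sub_zero, add_zero]
        rw [add_assoc l 1 1, one_add_one_eq_two]
        ring
      rw [e, ← sum_ofReal _ (fun c c' => (surv_mem _ _).1)]
      refine sum_le_sum (fun c _ => ?_)
      rw [lintegral_finsetSum _ (fun c' _ => (measurable_L E _ _ _).const_mul _)]
      refine sum_le_sum (fun c' _ => ?_)
      rw [lintegral_const_mul _ (measurable_L E _ _ _)]
      refine mul_le_mul_right ?_ _
      have := Bool.toNat_le c.1
      rw [show lo + (l + 1) + c'.1.toNat = lo + c.1.toNat + (l + 1 + c'.1.toNat - c.1.toNat) by omega]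
      exact ih _ _

end Pool.Agent.Lib.MP_37af32_pr.LG
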