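import Mathlib
import Pool.Agent.Lib.MP_37af32_pr.LGPca

/-!
Uniform ergodicity and the logarithmic lower bound.
-/

set_option autoImplicit false

namespace Pool.Agent.Lib.MP_37af32_pr.LG

open MeasureTheory Filter Topology Finset
open scoped ENNReal

variable {d : ℕ} (E : Dir d)

noncomputable def Fa (y : Fin d → ℤ) (x : Config d 16) : ℝ≥0∞ := if A E x y = 0 then 0 else 1

noncomputable def Fb (y : Fin d → ℤ) (x : Config d 16) : ℝ≥0∞ := if B E x y = 0 then 0 else 1

theorem measurable_Fa (y : Fin d → ℤ) : Measurable (Fa E y) :=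
  measurable_AB E (fun a _ => if a = 0 then (0 : ℝ≥0∞) else 1) y

theorem measurable_Fb (y : Fin d → ℤ) : Measurable (Fb E y) :=
  measurable_AB E (fun _ b => if b = 0 then (0 : ℝ≥0∞) else 1) y

theorem add_eq_zero2 : ∀ a b : ZMod 2, a + b = 0 ↔ a = b := by decide

theorem Fa_base (y : Fin d → ℤ) (x : Config d 16) (η : ℕ × ℕ → ZMod 2)
    (h : Agree E y 0 (A E x) (B E x) η) : Fa E y x = W 0 (0, 0) (1, 0) η := by
  have h1 := (h 0 0 le_rfl le_rfl).1
  rw [P_zero] at h1
  simp only [Fa, W, h1, add_eq_zero2, zero_add]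

theorem Fb_base (y : Fin d → ℤ) (x : Config d 16) (η : ℕ × ℕ → ZMod 2)
    (h : Agree E y 0 (A E x) (B E x) η) : Fb E y x = W 0 (0, 0) (0, 1) η := by
  have h1 := (h 0 0 le_rfl le_rfl).2
  rw [P_zero] at h1
  simp only [Fb, W, h1, add_eq_zero2, zero_add]

theorem lint_le {F : Config d 16 → ℝ≥0∞} (hF : Measurable F) (h1 : ∀ x, F x ≤ 1) (y : Fin d → ℤ)
    (p' : ℕ × ℕ) (h0 : ∀ x η, Agree E y 0 (A E x) (B E x) η → F x = W 0 (0, 0) p' η)
    (μ : ProbabilityMeasure (Config d 16)) (m n : ℕ) :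
    ∫⁻ x, F x ∂((Phi (nbh E) (rl E))^[m + n] μ : Measure (Config d 16)) ≤
      ENNReal.ofReal (at2 (q m) (0, 0) p' + (2 * m + 1) ^ 2 * surv n 1) := by
  have hp : ∀ x, (T E)^[m] F x ≤ ENNReal.ofReal (at2 (q m) (0, 0) p') +
      ∑ p ∈ range (2 * m + 1) ×ˢ range (2 * m + 1), L E (P E y p) 0 (0 + 1) x := by
    intro x
    by_cases hc : ∀ i j, i ≤ 2 * m → j ≤ 2 * m → curl E (A E x) (B E x) (P E y (i, j)) = 0
    · obtain ⟨η, hη⟩ := exists_agree E y _ _ _ hc
      rw [voter E hF y p' h0 m x η hη]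
      exact (W_le η m _ _).trans le_self_add
    · simp only [not_forall] at hc
      obtain ⟨i, j, hi, hj, hc⟩ := hc
      refine (iter_le_one E h1 m x).trans (le_add_left ?_)
      refine le_trans ?_ (single_le_sum (f := fun p => L E (P E y p) 0 (0 + 1) x)
        (fun _ _ => zero_le) (a := (i, j)) (by simp; omega))
      refine (if_neg (fun hf => hc ?_)).ge
      have := hf 0 le_rfl (by norm_num)
      rwa [P_zero] at this
  rw [Function.iterate_add_apply, lint_iter E hF]
  refine (lintegral_mono hp).trans ?_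
  rw [lintegral_add_left measurable_const, lintegral_const, measure_univ, mul_one,
    lintegral_finsetSum _ (fun p _ => measurable_L E _ _ _),
    ENNReal.ofReal_add (at2_nonneg _ _ _) (mul_nonneg (by positivity) (surv_mem _ _).1)]
  refine add_le_add_right ((sum_le_sum (fun p _ => lint_L E μ _ n 0 1)).trans (le_of_eq ?_)) _
  rw [sum_const, card_product, card_range, nsmul_eq_mul, ENNReal.ofReal_mul (by positivity),
    ← ENNReal.ofReal_natCast]
  congr 2
  push_cast
  ring

theorem occ_le (μ : ProbabilityMeasure (Config d 16)) (y : Fin d → ℤ) (m n : ℕ) :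
    ∫⁻ x, (Fa E y x + Fb E y x) ∂((Phi (nbh E) (rl E))^[m + n] μ : Measure (Config d 16)) ≤
      ENNReal.ofReal (q m 1 0 + q m 0 1 + 2 * (2 * (m : ℝ) + 1) ^ 2 * surv n 1) := by
  have a := lint_le E (measurable_Fa E y) (fun x => by unfold Fa; split_ifs <;> simp) y _
    (Fa_base E y) μ m n
  have b := lint_le E (measurable_Fb E y) (fun x => by unfold Fb; split_ifs <;> simp) y _
    (Fb_base E y) μ m n
  have s0 : 0 ≤ (2 * (m : ℝ) + 1) ^ 2 * surv n 1 := mul_nonneg (by positivity) (surv_mem _ _).1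
  rw [lintegral_add_left (measurable_Fa E y)]
  refine (add_le_add a b).trans ?_
  rw [← ENNReal.ofReal_add (add_nonneg (at2_nonneg _ _ _) s0) (add_nonneg (at2_nonneg _ _ _) s0)]
  refine ENNReal.ofReal_le_ofReal ?_
  have e1 : at2 (q m) (0, 0) (1, 0) = q m 1 0 := by simp [at2]
  have e2 : at2 (q m) (0, 0) (0, 1) = q m 0 1 := by simp [at2]
  linarith

theorem small (ε : ℝ) (hε : 0 < ε) : ∃ T0 : ℕ, ∀ t ≥ T0, ∀ (μ : ProbabilityMeasure (Config d 16))
    (y : Fin d → ℤ), ∫⁻ x, (Fa E y x + Fb E y x)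
      ∂((Phi (nbh E) (rl E))^[t] μ : Measure (Config d 16)) ≤ ENNReal.ofReal ε := by
  obtain ⟨m, hm⟩ := (q_tendsto.eventually (ge_mem_nhds (half_pos hε))).exists
  have h1 := surv_tendsto.const_mul (2 * (2 * (m : ℝ) + 1) ^ 2)
  rw [mul_zero] at h1
  obtain ⟨n0, hn⟩ := eventually_atTop.1 (h1.eventually (ge_mem_nhds (half_pos hε)))
  refine ⟨m + n0, fun t ht μ y => ?_⟩
  obtain ⟨n, rfl⟩ : ∃ n, t = m + n := ⟨t - m, by omega⟩
  have h2 := hn n (by omega)
  exact (occ_le E μ y m n).trans (ENNReal.ofReal_le_ofReal (by linarith))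

/-- the invariant measure: no interface, uniform arrows -/
noncomputable def pi0 (d : ℕ) : ProbabilityMeasure (Config d 16) :=
  ⟨(nu d).map (mk 0 0), by
    have := nu_prob (d := d)
    exact Measure.isProbabilityMeasure_map (measurable_mk _ _).aemeasurable⟩

theorem step_local (C : Set (Config d 16)) (hC : MeasurableSet C) (D : Finset (Fin d → ℤ))
    (hD : ∀ x y : Config d 16, (∀ i ∈ D, x i = y i) → x ∈ C → y ∈ C) (x : Config d 16) :
    step (nbh E) (rl E) x C ≤ (pi0 d : Measure (Config d 16)) C + ∑ i ∈ D, (Fa E i x + Fb E i x) ∧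
    (pi0 d : Measure (Config d 16)) C ≤ step (nbh E) (rl E) x C + ∑ i ∈ D, (Fa E i x + Fb E i x) := by
  by_cases h : ∀ i ∈ D, A E x i = 0 ∧ B E x i = 0
  · have e : step (nbh E) (rl E) x C = (pi0 d : Measure (Config d 16)) C := by
      show _ = ((nu d).map (mk 0 0)) C
      rw [step_eq, Measure.map_apply (measurable_mk _ _) hC,
        Measure.map_apply (measurable_mk _ _) hC]
      congr 1
      ext β
      have h1 : ∀ i ∈ D, mk (A E x) (B E x) β i = mk 0 0 β i := by
        intro i hi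
        simp only [mk, (h i hi).1, (h i hi).2, Pi.zero_apply]
      exact ⟨hD _ _ h1, hD _ _ (fun i hi => (h1 i hi).symm)⟩
    rw [e]
    exact ⟨le_self_add, le_self_add⟩
  · simp only [not_forall] at h
    obtain ⟨i, hi, h⟩ := h
    have h1 : 1 ≤ ∑ i ∈ D, (Fa E i x + Fb E i x) := by
      refine le_trans ?_ (single_le_sum (f := fun i => Fa E i x + Fb E i x) (fun _ _ => zero_le) hi)
      rcases not_and_or.1 h with h | h
      · exact le_add_right (if_neg h).ge
      · exact le_add_left (if_neg h).ge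
    exact ⟨le_add_left (prob_le_one.trans h1), le_add_left (prob_le_one.trans h1)⟩

theorem real_le {a b : ℝ≥0∞} {c : ℝ} (hb : b ≠ ⊤) (hc : 0 ≤ c) (h : a ≤ b + ENNReal.ofReal c) :
    a.toReal ≤ b.toReal + c := by
  have := ENNReal.toReal_mono (by finiteness) h
  rwa [ENNReal.toReal_add hb (by finiteness), ENNReal.toReal_ofReal hc] at this

theorem Phi_apply (ν : ProbabilityMeasure (Config d 16)) (C : Set (Config d 16))
    (hC : MeasurableSet C) : (Phi (nbh E) (rl E) ν : Measure (Config d 16)) C =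
      ∫⁻ x, step (nbh E) (rl E) x C ∂(ν : Measure (Config d 16)) :=
  Measure.bind_apply hC (measurable_step _ _).aemeasurable

theorem dev_of_occ (C : Set (Config d 16)) (hC : MeasurableSet C) (D : Finset (Fin d → ℤ))
    (hD : ∀ x y : Config d 16, (∀ i ∈ D, x i = y i) → x ∈ C → y ∈ C) {ε : ℝ} (hε : 0 ≤ ε)
    (ν : ProbabilityMeasure (Config d 16))
    (h : ∀ y, ∫⁻ x, (Fa E y x + Fb E y x) ∂(ν : Measure (Config d 16)) ≤ ENNReal.ofReal ε) :
    |((Phi (nbh E) (rl E) ν) C : ℝ) - (pi0 d C : ℝ)| ≤ D.card * ε := by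
  have hm : ∀ i ∈ D, Measurable (fun x => Fa E i x + Fb E i x) :=
    fun i _ => (measurable_Fa E i).add (measurable_Fb E i)
  have h1 : ∫⁻ x, ∑ i ∈ D, (Fa E i x + Fb E i x) ∂(ν : Measure (Config d 16)) ≤
      ENNReal.ofReal (D.card * ε) := by
    rw [lintegral_finsetSum _ hm]
    refine (sum_le_sum (fun i _ => h i)).trans ?_
    rw [sum_const, nsmul_eq_mul, ← ENNReal.ofReal_natCast, ← ENNReal.ofReal_mul (by positivity)]
  rw [← ProbabilityMeasure.measureReal_eq_coe_coeFn, ← ProbabilityMeasure.measureReal_eq_coe_coeFn,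
    abs_sub_le_iff, sub_le_iff_le_add', sub_le_iff_le_add']
  constructor
  · refine real_le (measure_ne_top _ _) (by positivity) ?_
    rw [Phi_apply E _ C hC]
    refine (lintegral_mono (fun x => (step_local E C hC D hD x).1)).trans ?_
    rw [lintegral_add_left measurable_const, lintegral_const, measure_univ, mul_one]
    exact add_le_add_right h1 _
  · refine real_le (measure_ne_top _ _) (by positivity) ?_
    rw [Phi_apply E _ C hC]
    refine le_trans ?_ (add_le_add_right h1 _)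
    rw [← lintegral_add_right _ (Finset.measurable_sum _ hm)]
    refine le_trans ?_ (lintegral_mono (fun x => (step_local E C hC D hD x).2))
    rw [lintegral_const, measure_univ, mul_one]

theorem dev_le (C : Set (Config d 16)) (hC : MeasurableSet C) (D : Finset (Fin d → ℤ))
    (hD : ∀ x y : Config d 16, (∀ i ∈ D, x i = y i) → x ∈ C → y ∈ C) (ε : ℝ) (hε : 0 < ε) :
    ∃ T0 : ℕ, ∀ t ≥ T0, ∀ μ : ProbabilityMeasure (Config d 16),
      |(((Phi (nbh E) (rl E))^[t] μ) C : ℝ) - (pi0 d C : ℝ)| ≤ ε := by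
  obtain ⟨T0, hT⟩ := small E (ε / (D.card + 1)) (by positivity)
  refine ⟨T0 + 1, fun t ht μ => ?_⟩
  obtain ⟨t, rfl⟩ : ∃ s, t = s + 1 := ⟨t - 1, by omega⟩
  rw [Function.iterate_succ_apply']
  refine (dev_of_occ E C hC D hD (by positivity) _ (hT t (by omega) μ)).trans ?_
  rw [← mul_div_assoc, div_le_iff₀ (by positivity)]
  nlinarith

theorem unif : UniformlyErgodic (Phi (nbh E) (rl E)) (pi0 d) := by
  intro D w ε hε
  refine dev_le E _ (measurable_cyl D w) D ?_ ε hε
  intro x y hxy hx i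
  rw [← hxy i i.2]
  exact hx i

theorem conv (μ : ProbabilityMeasure (Config d 16)) :
    Tendsto (fun t : ℕ => (Phi (nbh E) (rl E))^[t] μ) atTop (𝓝 (pi0 d)) := by
  let S : Set (Set (Config d 16)) := {C | MeasurableSet C ∧ ∃ D : Finset (Fin d → ℤ),
    ∀ x y : Config d 16, (∀ i ∈ D, x i = y i) → x ∈ C → y ∈ C}
  have hS : IsPiSystem S := by
    rintro C ⟨hC, D, hD⟩ C' ⟨hC', D', hD'⟩ -
    refine ⟨hC.inter hC', D ∪ D', fun x y hxy hx => ⟨?_, ?_⟩⟩
    · exact hD x y (fun i hi => hxy i (Finset.mem_union_left _ hi)) hx.1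
    · exact hD' x y (fun i hi => hxy i (Finset.mem_union_right _ hi)) hx.2
  refine hS.tendsto_probabilityMeasure_of_tendsto_of_mem (fun s hs => hs.1) ?_ ?_
  · intro u hu x hx
    obtain ⟨I, v, h1, h2⟩ := isOpen_pi_iff.1 hu x hx
    refine ⟨(I : Set (Fin d → ℤ)).pi v, ⟨?_, I, ?_⟩, ?_, h2⟩
    · exact MeasurableSet.pi I.countable_toSet (fun _ _ => MeasurableSet.of_discrete)
    · intro x y hxy hx i hi
      rw [← hxy i hi]
      exact hx i hi
    · exact (isOpen_set_pi I.finite_toSet (fun a ha => (h1 a ha).1)).mem_nhds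
        (fun a ha => (h1 a ha).2)
  · rintro C ⟨hC, D, hD⟩
    rw [← NNReal.tendsto_coe, Metric.tendsto_atTop]
    intro ε hε
    obtain ⟨T0, hT⟩ := dev_le E C hC D hD (ε / 2) (half_pos hε)
    exact ⟨T0, fun t ht => (hT t ht μ).trans_lt (half_lt_self hε)⟩

theorem inv : Phi (nbh E) (rl E) (pi0 d) = pi0 d := by
  have := nu_prob (d := d)
  apply Subtype.ext
  refine Measure.ext (fun C hC => (Phi_apply E _ C hC).trans ?_)
  show ∫⁻ x, step (nbh E) (rl E) x C ∂((nu d).map (mk 0 0)) = ((nu d).map (mk 0 0)) C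
  have hm : Measurable (fun x => step (nbh E) (rl E) x C) :=
    (Measure.measurable_coe hC).comp (measurable_step _ _)
  rw [lintegral_map hm (measurable_mk _ _)]
  have h : ∀ β : Arr d, step (nbh E) (rl E) (mk 0 0 β) = (nu d).map (mk 0 0) := by
    intro β
    have a : nA E 0 0 β = 0 := by funext i; simp [nA, phi]
    have b : nB E 0 0 β = 0 := by funext i; simp [nB, phi, curl]
    rw [step_eq, A_mk, B_mk, a, b]
  simp only [h]
  rw [lintegral_const, measure_univ, mul_one]

theorem ergodic : ErgodicTo (Phi (nbh E) (rl E)) (pi0 d) := by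
  refine ⟨inv E, fun ν hν => ?_, conv E⟩
  have h := conv E ν
  simp only [Function.iterate_fixed hν] at h
  exact tendsto_nhds_unique tendsto_const_nhds h

/-- the start: all edges are interfaces -/
noncomputable def mu0 (d : ℕ) : ProbabilityMeasure (Config d 16) :=
  ⟨Measure.dirac (mk (fun _ => 1) (fun _ => 1) (fun _ => (false, false))), inferInstance⟩

theorem lint_start (m : ℕ) :
    ∫⁻ x, Fa E 0 x ∂((Phi (nbh E) (rl E))^[m + 1] (mu0 d) : Measure (Config d 16)) =
      ENNReal.ofReal (q m 1 0 / 2) := by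
  have e1 : at2 (q m) (0, 0) (1, 0) = q m 1 0 := by simp [at2]
  rw [lint_iter E (measurable_Fa E 0), ← e1, ← W_par]
  refine (lintegral_dirac' _ (measurable_iter E (measurable_Fa E 0) _)).trans ?_
  refine voter E (measurable_Fa E 0) 0 _ (Fa_base E 0) _ _ _ ?_
  have a : nA E (fun _ => 1) (fun _ => 1) (fun _ => (false, false)) = fun _ => 1 := by
    funext i; simp [nA, phi]
  have b : nB E (fun _ => 1) (fun _ => 1) (fun _ => (false, false)) = fun _ => 1 := by
    funext i; simp [nB, phi]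
  rw [A_mk, B_mk, a, b]
  exact agree_par E _ _

/-- the letter with no interface and the trivial arrow -/
noncomputable def w0 : Fin 16 := enc ((0, 0), (false, false))

theorem map_cyl (a b : Fld d) : ((nu d).map (mk a b)) (cyl {0} (fun _ => w0)) =
    if a 0 = 0 ∧ b 0 = 0 then 4⁻¹ else 0 := by
  rw [Measure.map_apply (measurable_mk _ _) (measurable_cyl _ _)]
  split_ifs with h
  · rw [← nu_one (0 : Fin d → ℤ) (false, false)]
    congr 1
    ext β
    simp [cyl, mk, w0, h.1, h.2]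
  · have : mk a b ⁻¹' cyl {0} (fun _ => w0) = ∅ := by
      ext β
      simp only [cyl, mk, w0, Set.mem_preimage, Set.mem_ofPred_eq, Subtype.forall, mem_singleton,
        forall_eq, EmbeddingLike.apply_eq_iff_eq, Prod.mk.injEq, Set.mem_empty_iff_false, iff_false]
      exact fun hh => h hh.1
    rw [this, measure_empty]

theorem step_cyl (x : Config d 16) :
    step (nbh E) (rl E) x (cyl {0} (fun _ => w0)) + 4⁻¹ * Fa E 0 x ≤ 4⁻¹ := by
  rw [step_eq, map_cyl, Fa]
  by_cases ha : A E x 0 = 0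
  · rw [if_pos ha, mul_zero, add_zero]
    split_ifs
    · exact le_rfl
    · exact zero_le
  · rw [if_neg ha, if_neg (fun h => ha h.1), zero_add, mul_one]

theorem pi0_cyl : (pi0 d : Measure (Config d 16)) (cyl {0} (fun _ => w0)) = 4⁻¹ := by
  have e : (pi0 d : Measure (Config d 16)) = (nu d).map (mk 0 0) := rfl
  rw [e, map_cyl, if_pos ⟨rfl, rfl⟩]

theorem Phi_cyl (ν : ProbabilityMeasure (Config d 16)) :
    (Phi (nbh E) (rl E) ν : Measure (Config d 16)) (cyl {0} (fun _ => w0)) +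
      4⁻¹ * ∫⁻ x, Fa E 0 x ∂(ν : Measure (Config d 16)) ≤ 4⁻¹ := by
  rw [Phi_apply E _ _ (measurable_cyl _ _), ← lintegral_const_mul _ (measurable_Fa E 0),
    ← lintegral_add_right _ ((measurable_Fa E 0).const_mul _)]
  refine (lintegral_mono (step_cyl E)).trans ?_
  rw [lintegral_const, measure_univ, mul_one]

theorem real_gap {a : ℝ≥0∞} {c : ℝ} (ha : a ≠ ⊤) (hc : 0 ≤ c)
    (h : a + 4⁻¹ * ENNReal.ofReal (c / 2) ≤ 4⁻¹) : c / 8 ≤ |a.toReal - (4⁻¹ : ℝ≥0∞).toReal| := by
  have h3 := ENNReal.toReal_mono (by simp) h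
  rw [ENNReal.toReal_add ha (by finiteness), ENNReal.toReal_mul,
    ENNReal.toReal_ofReal (by positivity)] at h3
  rw [abs_sub_comm]
  refine le_trans ?_ (le_abs_self _)
  simp only [ENNReal.toReal_inv, ENNReal.toReal_ofNat] at h3 ⊢
  linarith

theorem dev_ge (m : ℕ) :
    q m 1 0 / 8 ≤ dev (Phi (nbh E) (rl E)) (pi0 d) (mu0 d) (m + 1 + 1) {0} (fun _ => w0) := by
  have h1 := Phi_cyl E ((Phi (nbh E) (rl E))^[m + 1] (mu0 d))
  rw [lint_start] at h1
  have h2 := real_gap (measure_ne_top _ _) (q_mem m 1 0).1 h1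
  unfold dev
  rw [← ProbabilityMeasure.measureReal_eq_coe_coeFn, ← ProbabilityMeasure.measureReal_eq_coe_coeFn,
    Function.iterate_succ_apply', Measure.real, Measure.real, pi0_cyl]
  exact h2

theorem dev_log (t : ℕ) (ht : 3 ≤ t) :
    1 / 64 / Real.log t ≤ dev (Phi (nbh E) (rl E)) (pi0 d) (mu0 d) t {0} (fun _ => w0) := by
  obtain ⟨n, rfl⟩ : ∃ n, t = n + 1 + 1 + 1 := ⟨t - 3, by omega⟩
  refine le_trans ?_ (dev_ge E (n + 1))
  have h := q_lower n
  have e : (((n + 1 + 1 + 1 : ℕ) : ℝ)) = n + 3 := by push_cast; ring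
  rw [e]
  have : 1 / 64 / Real.log ((n : ℝ) + 3) = 1 / (8 * Real.log (n + 3)) / 8 := by ring
  linarith

end Pool.Agent.Lib.MP_37af32_pr.LG
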