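import Mathlib
import Pool.Agent.Lib.MP_37af32_pr.LGMain

/-!
The matching upper bound of order `1 / log t`, and failure of exponential convergence.
-/

set_option autoImplicit false

namespace Pool.Agent.Lib.MP_37af32_pr.LG

open MeasureTheory Finset

variable {d : ℕ} (E : Dir d)

theorem s_neg (n : ℕ) : ∀ j, s n (-j) = s n j := by
  induction n with
  | zero => intro j; simp only [s, neg_eq_zero]
  | succ n ih =>
    intro j
    simp only [s]
    rw [show -j - 1 = -(j + 1) by ring, show -j + 1 = -(j - 1) by ring, ih, ih, ih]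
    ring

theorem surv_eq (t : ℕ) : ∀ l : ℕ, surv t l = ∑ j ∈ range l, (s t j + s t (j + 1)) := by
  induction t with
  | zero =>
    intro l
    cases l with
    | zero => simp [surv]
    | succ l =>
      rw [sum_range_succ', sum_eq_zero]
      · simp [surv, s]
      · intro j _
        simp only [s]
        rw [if_neg (by omega), if_neg (by omega), add_zero]
  | succ t ih =>
    intro l
    cases l with
    | zero => simp [surv]
    | succ l =>
      rw [surv_succ, ih, ih, ih]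
      induction l with
      | zero =>
        have h := s_neg t 1
        have e : s (t + 1) 0 + s (t + 1) 1 =
            (s t (-1) + 2 * s t 0 + s t 1) / 4 + (s t 0 + 2 * s t 1 + s t 2) / 4 := rfl
        simp only [sum_range_succ, sum_range_zero, Nat.cast_zero, Nat.cast_one, zero_add,
          one_add_one_eq_two, e, h]
        ring
      | succ l ih2 =>
        rw [sum_range_succ (fun j : ℕ => s (t + 1) j + s (t + 1) (j + 1)), ← ih2]
        simp only [sum_range_succ, s]
        push_cast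
        simp only [add_sub_cancel_right]
        ring_nf

theorem s_le (n : ℕ) : s n 1 ≤ s n 0 := by
  rw [s_orig, s_eq, bin, if_neg (by omega)]
  exact div_le_div_of_nonneg_right (by exact_mod_cast Nat.choose_le_centralBinom _ _)
    (by positivity)

theorem surv_le (n : ℕ) {x : ℝ} (hx : 0 < x) (h : x ^ 2 ≤ 2 * n + 1) : surv n 1 ≤ 2 / x := by
  have h1 : s n 0 ≤ 1 / x := by
    refine abs_le_of_sq_le_sq' ?_ (by positivity) |>.2
    rw [sq, div_pow, one_pow]
    exact (u_bounds n).2.trans (one_div_le_one_div_of_le (by positivity) h)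
  have h2 := s_le n
  have h3 : 2 / x = 1 / x + 1 / x := by ring
  rw [surv_eq, sum_range_one, Nat.cast_zero, zero_add]
  linarith

theorem log_le_sum (n : ℕ) : Real.log (n + 1) ≤ ∑ k ∈ range n, 1 / ((k : ℝ) + 1) := by
  induction n with
  | zero => simp
  | succ n ih =>
    have h2 := Real.log_le_sub_one_of_pos (show (0 : ℝ) < (n + 1 + 1) / (n + 1) by positivity)
    rw [Real.log_div (by positivity) (by positivity)] at h2
    have h3 : ((n : ℝ) + 1 + 1) / (n + 1) - 1 = 1 / (n + 1) := by field_simp; ring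
    rw [sum_range_succ]
    push_cast
    linarith

theorem r_upper (n : ℕ) : r n * Real.log (n + 1) ≤ 4 := by
  have h1 : r n * ∑ k ∈ range (n + 1), 1 / ((k : ℝ) + 1) ≤
      4 * ∑ k ∈ range (n + 1), s k 0 * s k 0 * r (n - k) := by
    rw [mul_sum, mul_sum]
    refine sum_le_sum (fun k _ => ?_)
    rw [mul_comm, ← mul_assoc]
    refine mul_le_mul ?_ (r_anti (Nat.sub_le n k)) (r_mem n).1 (mul_nonneg (by norm_num) (u_nonneg k))
    have k0 : (0 : ℝ) ≤ k := Nat.cast_nonneg k
    refine le_trans ?_ (mul_le_mul_of_nonneg_left (u_bounds k).1 (by norm_num))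
    rw [mul_one_div, div_le_div_iff₀ (by positivity) (by positivity)]
    linarith
  rw [renewal, mul_one] at h1
  refine le_trans (mul_le_mul_of_nonneg_left ?_ (r_mem n).1) h1
  refine le_trans (Real.log_le_log (by positivity) ?_) (log_le_sum (n + 1))
  push_cast
  linarith

theorem occ_log (μ : ProbabilityMeasure (Config d 16)) (y : Fin d → ℤ) (t : ℕ) (ht : 2 ≤ t) :
    ∫⁻ x, (Fa E y x + Fb E y x) ∂((Phi (nbh E) (rl E))^[t] μ : Measure (Config d 16)) ≤
      ENNReal.ofReal (800 / Real.log ((t + 1 : ℕ) : ℝ)) := by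
  obtain ⟨m, h1, h2, h3⟩ : ∃ m : ℕ, 1 ≤ m ∧ m ^ 8 ≤ t ∧ t < (m + 1) ^ 8 :=
    ⟨Nat.nthRoot 8 t, (Nat.le_nthRoot_iff (by norm_num)).2 (by omega),
      Nat.pow_nthRoot_le_iff.2 (Or.inl (by norm_num)), Nat.lt_pow_nthRoot_add_one (by norm_num) t⟩
  have h4 : 2 * m ≤ m ^ 8 + 1 := by
    have : m ^ 2 ≤ m ^ 8 := Nat.pow_le_pow_right h1 (by norm_num)
    nlinarith [sq_nonneg ((m : ℤ) - 1)]
  obtain ⟨n, rfl⟩ : ∃ n, t = m + n := ⟨t - m, by omega⟩
  refine (occ_le E μ y m n).trans (ENNReal.ofReal_le_ofReal ?_)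
  have m1 : (1 : ℝ) ≤ m := by exact_mod_cast h1
  have a1 : surv n 1 ≤ 2 / (m : ℝ) ^ 4 := by
    refine surv_le n (by positivity) ?_
    rw [← pow_mul]
    exact_mod_cast (show m ^ 8 ≤ 2 * n + 1 by omega)
  have l0 : 0 < Real.log ((m + n + 1 : ℕ) : ℝ) := Real.log_pos (by exact_mod_cast (by omega))
  have l1 : Real.log ((m + n + 1 : ℕ) : ℝ) ≤ 8 * Real.log (m + 1) := by
    have := Real.log_le_log (show (0 : ℝ) < ((m + n + 1 : ℕ) : ℝ) by positivity)
      (show ((m + n + 1 : ℕ) : ℝ) ≤ ((m : ℝ) + 1) ^ 8 by exact_mod_cast h3)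
    rw [Real.log_pow] at this
    exact_mod_cast this
  have l2 : Real.log ((m : ℝ) + 1) ≤ m := by
    linarith [Real.log_le_sub_one_of_pos (show (0 : ℝ) < m + 1 by positivity)]
  have l3 : Real.log ((m : ℝ) + 1) ≤ Real.log (((m + 1 : ℕ) : ℝ) + 1) :=
    Real.log_le_log (by positivity) (by push_cast; linarith)
  have a2 := q_le_r m
  have a3 := r_upper (m + 1)
  have r0 := (r_mem (m + 1)).1
  have a4 : r (m + 1) * Real.log ((m + n + 1 : ℕ) : ℝ) ≤ 32 := by
    have := mul_le_mul_of_nonneg_left (l1.trans (mul_le_mul_of_nonneg_left l3 (by norm_num))) r0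
    linarith
  have a5 : 2 * (2 * (m : ℝ) + 1) ^ 2 * surv n 1 ≤ 36 / m := by
    refine (mul_le_mul_of_nonneg_left a1 (by positivity)).trans ?_
    rw [← mul_div_assoc, div_le_div_iff₀ (by positivity) (by positivity)]
    have b1 : (2 * (m : ℝ) + 1) ^ 2 ≤ 9 * m ^ 2 := by nlinarith
    have b2 : (m : ℝ) ^ 3 ≤ m ^ 4 := pow_le_pow_right₀ m1 (by norm_num)
    have b3 := mul_le_mul_of_nonneg_right b1 (show (0 : ℝ) ≤ m by linarith)
    nlinarith
  have a6 : 36 / (m : ℝ) * Real.log ((m + n + 1 : ℕ) : ℝ) ≤ 288 := by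
    rw [div_mul_eq_mul_div, div_le_iff₀ (by linarith)]
    linarith
  rw [le_div_iff₀ l0]
  have a7 := mul_le_mul_of_nonneg_right
    (show q m 1 0 + q m 0 1 + 2 * (2 * (m : ℝ) + 1) ^ 2 * surv n 1 ≤ 16 * r (m + 1) + 36 / m by
      linarith [a2.1, a2.2]) l0.le
  linarith

theorem dev_upper (D : Finset (Fin d → ℤ)) (w : D → Fin 16) (μ : ProbabilityMeasure (Config d 16))
    (t : ℕ) (ht : 3 ≤ t) :
    dev (Phi (nbh E) (rl E)) (pi0 d) μ t D w ≤ 800 * D.card / Real.log t := by
  obtain ⟨t, rfl⟩ : ∃ s, t = s + 1 := ⟨t - 1, by omega⟩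
  have l0 : 0 < Real.log ((t + 1 : ℕ) : ℝ) := Real.log_pos (by exact_mod_cast (by omega))
  unfold dev
  rw [Function.iterate_succ_apply']
  refine (dev_of_occ E _ (measurable_cyl D w) D ?_ (by positivity) _
    (fun y => occ_log E μ y t (by omega))).trans (le_of_eq (by ring))
  intro x y hxy hx i
  rw [← hxy i i.2]
  exact hx i

theorem not_weakExp : ¬ WeakExpConv (Phi (nbh E) (rl E)) (pi0 d) := by
  intro h
  obtain ⟨K, γ, hγ, hK⟩ := h {0} (fun _ => w0) (mu0 d)
  refine not_exp (fun t => 192 * dev (Phi (nbh E) (rl E)) (pi0 d) (mu0 d) (t + 2) {0} (fun _ => w0))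
    (fun t => ?_) (192 * K * γ ^ 2) γ hγ (fun t => ?_)
  · have h1 := dev_log E (t + 1 + 2) (by omega)
    have t0 : (0 : ℝ) ≤ t := Nat.cast_nonneg t
    have l0 : 0 < Real.log ((t + 1 + 2 : ℕ) : ℝ) := Real.log_pos (by exact_mod_cast (by omega))
    have l1 : Real.log ((t + 1 + 2 : ℕ) : ℝ) ≤ 3 * (t + 1) := by
      have := Real.log_le_sub_one_of_pos (show (0 : ℝ) < ((t + 1 + 2 : ℕ) : ℝ) by positivity)
      push_cast at this ⊢
      linarith
    refine le_trans ?_ (mul_le_mul_of_nonneg_left h1 (by norm_num))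
    rw [← mul_div_assoc, div_le_div_iff₀ (by positivity) l0]
    linarith
  · have := hK (t + 2)
    rw [pow_add] at this
    linarith

theorem not_exp' : ¬ ExpConv (Phi (nbh E) (rl E)) (pi0 d) := by
  intro h
  apply not_weakExp E
  intro D w μ
  obtain ⟨K, γ, hγ, hK⟩ := h D w
  exact ⟨K, γ, hγ, fun t => hK t μ⟩

/-- the first two coordinate directions -/
def dir (d : ℕ) (hd : 2 ≤ d) : Dir d where
  v := Pi.single ⟨0, by omega⟩ 1
  w := Pi.single ⟨1, by omega⟩ 1
  inj := by
    intro i j i' j' h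
    have h0 := congrFun h ⟨0, by omega⟩
    have h1 := congrFun h ⟨1, by omega⟩
    simp at h0 h1
    exact ⟨h0, h1⟩

end Pool.Agent.Lib.MP_37af32_pr.LG
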