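import Pool.Agent.Lib.MP_37af32_pr.Bin

/-! An ergodic automaton without any rate of convergence.  Besides the coalescing runs of the
letter one there is a signal letter; it moves by `v` through empty sites and leaves a one behind. -/

set_option autoImplicit false

namespace Pool.Agent.Lib.MP_37af32_pr.NU

open MeasureTheory Filter Topology Finset Pool.Agent.Lib.MP_37af32_pr.Bin
open scoped ENNReal Classical

variable {d q : ℕ} {B : Nb d}

/-- the signal letter -/
def sg (q : ℕ) : Fin (q + 3) := ⟨2, by omega⟩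

theorem sg_ne_zero : sg q ≠ 0 := fun h => by simpa [sg] using congrArg Fin.val h

theorem sg_ne_one : sg q ≠ 1 := fun h => by simpa [sg] using congrArg Fin.val h

/-- occupied or not -/
def oc (a : Fin (q + 3)) : Fin (0 + 2) := if a = 0 then 0 else 1

/-- the letter one or not -/
def pr (a : Fin (q + 3)) : Fin (0 + 2) := if a = 1 then 1 else 0

/-- the letters zero and one inside the larger alphabet -/
def up (q : ℕ) (b : Fin (0 + 2)) : Fin (q + 3) := if b = 1 then 1 else 0

theorem oc_eq_one {a : Fin (q + 3)} : oc a = 1 ↔ a ≠ 0 := by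
  unfold oc
  split_ifs with h <;> simp [h]

theorem pr_eq_one {a : Fin (q + 3)} : pr a = 1 ↔ a = 1 := by
  unfold pr
  split_ifs with h <;> simp [h]

theorem pr_up (b : Fin (0 + 2)) : pr (up q b) = b := by
  unfold pr up
  fin_cases b <;> simp

/-- a signal moves on if the next two sites are empty; otherwise every occupied site is read as
the letter one and the rule of the coalescing runs is applied -/
noncomputable def ru (B : Nb d) (q : ℕ) (u : B.N → Fin (q + 3)) : PMF (Fin (q + 3)) :=
  if u ⟨-B.v, B.m2⟩ = sg q ∧ u ⟨0, B.m0⟩ = 0 ∧ u ⟨B.v, B.m1⟩ = 0 then PMF.pure (sg q)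
  else (rl B 0 fun n => oc (u n)).map (up q)

/-- the occupied sites -/
def tl (x : Config d (q + 3)) : Config d (0 + 2) := fun i => oc (x i)

/-- the sites with the letter one -/
def pj (x : Config d (q + 3)) : Config d (0 + 2) := fun i => pr (x i)

theorem measurable_tl : Measurable (tl : Config d (q + 3) → Config d (0 + 2)) :=
  measurable_pi_lambda _ fun i =>
    (Measurable.of_discrete (f := (oc : Fin (q + 3) → _))).comp (measurable_pi_apply i)

theorem measurable_pj : Measurable (pj : Config d (q + 3) → Config d (0 + 2)) :=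
  measurable_pi_lambda _ fun i =>
    (Measurable.of_discrete (f := (pr : Fin (q + 3) → _))).comp (measurable_pi_apply i)

/-- a signal arrives at `s` -/
def Sg (B : Nb d) (x : Config d (q + 3)) (s : Fin d → ℤ) : Prop :=
  x (s - B.v) = sg q ∧ x s = 0 ∧ x (s + B.v) = 0

/-- the law of the new symbol -/
noncomputable def kq (B : Nb d) (x : Config d (q + 3)) (i : Fin d → ℤ) : PMF (Fin (q + 3)) :=
  ru B q fun n : B.N => x (i + n)

theorem kq_eq (x : Config d (q + 3)) (i : Fin d → ℤ) : kq B x i =
    if Sg B x i then PMF.pure (sg q) else (kp B (tl x) i).map (up q) := by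
  unfold kq ru Sg
  simp only [add_zero, ← sub_eq_add_neg]
  split_ifs <;> rfl

theorem kq_map (x : Config d (q + 3)) (i : Fin d → ℤ) : (kq B x i).map pr = kp B (tl x) i := by
  rw [kq_eq]
  split_ifs with h
  · rw [PMF.pure_map, kp_eq, if_neg (fun k => oc_eq_one.1 k.1 h.2.1),
      if_neg (fun k => oc_eq_one.1 k.1 h.2.2), pr, if_neg sg_ne_one]
  · have : (pr ∘ up q : Fin (0 + 2) → Fin (0 + 2)) = id := funext pr_up
    rw [PMF.map_comp, this, PMF.map_id]

theorem step_eq' (x : Config d (q + 3)) :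
    step B.N (ru B q) x = Measure.infinitePi fun i => (kq B x i).toMeasure := rfl

theorem step_map (x : Config d (q + 3)) :
    (step B.N (ru B q) x).map pj = step B.N (rl B 0) (tl x) := by
  have h := Measure.infinitePi_map_pi (fun i => (kq B x i).toMeasure)
    (f := fun _ => (pr : Fin (q + 3) → Fin (0 + 2))) fun _ => Measurable.of_discrete
  rw [step_eq', step_eq]
  refine h.trans ?_
  simp only [PMF.toMeasure_map _ _ (Measurable.of_discrete (f := (pr : Fin (q + 3) → _))), kq_map]

theorem ae_st (x : Config d (q + 3)) : ∀ᵐ y ∂step B.N (ru B q) x, ∀ s,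
    (Sg B x s → y s = sg q) ∧ (¬ Sg B x s → y s = 0 ∨ y s = 1) ∧ (Lf B (tl x) s → y s = 1) ∧
      (y s = 1 → Lf B (tl x) s ∨ Lf B (tl x) (s + B.v)) := by
  have h1 : ∀ᵐ y ∂step B.N (ru B q) x, ∀ s,
      (Sg B x s → y s = sg q) ∧ (¬ Sg B x s → y s = 0 ∨ y s = 1) := by
    rw [step_eq', ae_all_iff]
    intro s
    refine (measurePreserving_eval_infinitePi (fun i => (kq B x i).toMeasure)
      s).quasiMeasurePreserving.ae
      (p := fun a => (Sg B x s → a = sg q) ∧ (¬ Sg B x s → a = 0 ∨ a = 1)) ?_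
    rw [ae_iff, PMF.toMeasure_apply_eq_zero_iff _ MeasurableSet.of_discrete, Set.disjoint_left]
    intro a ha hn
    apply hn
    rw [kq_eq] at ha
    split_ifs at ha with h
    · exact ⟨fun _ => by simpa using ha, fun k => absurd h k⟩
    · refine ⟨fun k => absurd k h, fun _ => ?_⟩
      rw [PMF.mem_support_map_iff] at ha
      obtain ⟨b, -, rfl⟩ := ha
      unfold up
      split_ifs
      · exact Or.inr rfl
      · exact Or.inl rfl
  have h2 := ae_step (B := B) (tl x)
  rw [← step_map] at h2
  filter_upwards [h1, ae_of_ae_map measurable_pj.aemeasurable h2] with y k1 k2 s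
  refine ⟨(k1 s).1, (k1 s).2, fun h => pr_eq_one.1 ((k2 s).1 h), fun h => ?_⟩
  rcases (k2 s).2 with k | k
  · exact absurd (k.symm.trans (pr_eq_one.2 h)) zero_ne_one
  · exact k.2

theorem Phi_app (ν : ProbabilityMeasure (Config d (q + 3))) {C : Set (Config d (q + 3))}
    (hC : MeasurableSet C) : (Phi B.N (ru B q) ν : Measure (Config d (q + 3))) C =
      ∫⁻ x, step B.N (ru B q) x C ∂(ν : Measure (Config d (q + 3))) :=
  Measure.bind_apply hC (measurable_step _ _).aemeasurable

theorem up_bound (ν : ProbabilityMeasure (Config d (q + 3))) {C C' : Set (Config d (q + 3))}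
    (hC : MeasurableSet C) (hC' : MeasurableSet C')
    (h : ∀ x, ∀ᵐ y ∂step B.N (ru B q) x, y ∈ C → x ∈ C') :
    (Phi B.N (ru B q) ν : Measure (Config d (q + 3))) C ≤ (ν : Measure (Config d (q + 3))) C' := by
  rw [Phi_app ν hC, ← lintegral_indicator_one hC']
  refine lintegral_mono fun x => ?_
  by_cases hx : x ∈ C'
  · rw [Set.indicator_of_mem hx]
    exact prob_le_one
  · rw [Set.indicator_of_notMem hx]
    exact (measure_eq_zero_iff_ae_notMem.2 ((h x).mono fun y k hy => hx (k hy))).le

theorem low_bound (ν : ProbabilityMeasure (Config d (q + 3))) {C C' : Set (Config d (q + 3))}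
    (hC : MeasurableSet C) (hC' : MeasurableSet C')
    (h : ∀ x, ∀ᵐ y ∂step B.N (ru B q) x, x ∈ C' → y ∈ C) :
    (ν : Measure (Config d (q + 3))) C' ≤ (Phi B.N (ru B q) ν : Measure (Config d (q + 3))) C := by
  rw [Phi_app ν hC, ← lintegral_indicator_one hC']
  refine lintegral_mono fun x => ?_
  by_cases hx : x ∈ C'
  · rw [Set.indicator_of_mem hx, Pi.one_apply, ← measure_univ (μ := step B.N (ru B q) x)]
    exact measure_mono_ae ((h x).mono fun y k _ => k hx)
  · rw [Set.indicator_of_notMem hx]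
    exact zero_le

theorem Phi_pj (ν : ProbabilityMeasure (Config d (q + 3))) {C : Set (Config d (0 + 2))}
    (hC : MeasurableSet C) : (Phi B.N (ru B q) ν : Measure (Config d (q + 3))) (pj ⁻¹' C) =
      (Phi B.N (rl B 0) (ν.map measurable_tl.aemeasurable) : Measure (Config d (0 + 2))) C := by
  have hm : Measurable fun z : Config d (0 + 2) => step B.N (rl B 0) z C :=
    (Measure.measurable_coe hC).comp (measurable_step _ _)
  rw [Phi_app ν (measurable_pj hC), Phi_apply _ hC, ProbabilityMeasure.toMeasure_map,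
    lintegral_map hm measurable_tl]
  refine lintegral_congr fun x => ?_
  rw [← step_map, Measure.map_apply measurable_pj hC]

/-- a letter other than zero and one at distance `k` before `p`, and empty sites up to `p` -/
def K (B : Nb d) (q : ℕ) (p : Fin d → ℤ) (k : ℕ) : Set (Config d (q + 3)) :=
  {x | (x (p - (k : ℤ) • B.v) ≠ 0 ∧ x (p - (k : ℤ) • B.v) ≠ 1) ∧
    ∀ j < k, x (p - (j : ℤ) • B.v) = 0}

theorem measurable_K (p : Fin d → ℤ) (k : ℕ) : MeasurableSet (K B q p k) := by
  unfold K
  measurability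

theorem back (B : Nb d) (p : Fin d → ℤ) (k : ℕ) :
    p - ((k + 1 : ℕ) : ℤ) • B.v = p - (k : ℤ) • B.v - B.v := by
  push_cast
  rw [add_smul, one_smul, sub_sub]

theorem K_step (p : Fin d → ℤ) (k : ℕ) (x : Config d (q + 3)) :
    ∀ᵐ y ∂step B.N (ru B q) x, y ∈ K B q p k → x ∈ K B q p (k + 1) := by
  filter_upwards [ae_st (B := B) x] with y hy hk
  have hs : Sg B x (p - (k : ℤ) • B.v) := by
    by_contra hn
    rcases (hy _).2.1 hn with h | h
    · exact hk.1.1 h
    · exact hk.1.2 h
  have h0 : ∀ m j, j + m = k → x (p - (j : ℤ) • B.v) = 0 := by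
    intro m
    induction m with
    | zero =>
      intro j hj
      rw [add_zero] at hj
      rw [hj]
      exact hs.2.1
    | succ m ih =>
      intro j hj
      have h1 := ih (j + 1) (by omega)
      rw [back] at h1
      by_contra hn
      have h2 := (hy _).2.2.1 ⟨oc_eq_one.2 hn, fun h => oc_eq_one.1 h h1⟩
      exact zero_ne_one ((hk.2 j (by omega)).symm.trans h2)
  refine ⟨?_, fun j hj => h0 (k - j) j (by omega)⟩
  rw [back, hs.1]
  exact ⟨sg_ne_zero, sg_ne_one⟩

theorem K_iter (μ : ProbabilityMeasure (Config d (q + 3))) (p : Fin d → ℤ) (t : ℕ) : ∀ k,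
    ((Phi B.N (ru B q))^[t] μ : Measure (Config d (q + 3))) (K B q p k) ≤
      (μ : Measure (Config d (q + 3))) (K B q p (k + t)) := by
  induction t with
  | zero => exact fun k => le_rfl
  | succ t ih =>
    intro k
    rw [Function.iterate_succ_apply', show k + (t + 1) = k + 1 + t by omega]
    exact (up_bound _ (measurable_K p k) (measurable_K p (k + 1)) (K_step p k)).trans (ih _)

theorem K_tendsto (μ : ProbabilityMeasure (Config d (q + 3))) (p : Fin d → ℤ) :
    Tendsto (fun t => ((Phi B.N (ru B q))^[t] μ : Measure (Config d (q + 3))).real (K B q p 0))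
      atTop (𝓝 0) := by
  have hd : Pairwise (Function.onFun Disjoint (K B q p)) := by
    intro k k' hne
    refine Set.disjoint_left.2 fun x h1 h2 => ?_
    rcases lt_or_gt_of_ne hne with h | h
    · exact h1.1.1 (h2.2 k h)
    · exact h2.1.1 (h1.2 k' h)
  have h1 : ∑' k, (μ : Measure (Config d (q + 3))) (K B q p k) ≠ ∞ := by
    rw [← measure_iUnion hd (measurable_K p)]
    exact measure_ne_top _ _
  have h2 := (ENNReal.tendsto_toReal ENNReal.zero_ne_top).comp
    (ENNReal.tendsto_atTop_zero_of_tsum_ne_top h1)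
  refine squeeze_zero (fun _ => measureReal_nonneg) (fun t => ?_) h2
  have h3 := K_iter (B := B) μ p t 0
  rw [zero_add] at h3
  exact ENNReal.toReal_mono (measure_ne_top _ _) h3

theorem mem_K_zero {p : Fin d → ℤ} {x : Config d (q + 3)} :
    x ∈ K B q p 0 ↔ x p ≠ 0 ∧ x p ≠ 1 := by
  simp [K]

theorem H_step (ν : ProbabilityMeasure (Config d (q + 3))) (p : Fin d → ℤ) (l : ℕ) :
    ((ν : Measure (Config d (q + 3))).real (tl ⁻¹' Bin.H B 0 (p + B.v) l) +
      (ν : Measure (Config d (q + 3))).real (tl ⁻¹' Bin.H B 0 p (l + 1)) +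
      (ν : Measure (Config d (q + 3))).real (tl ⁻¹' Bin.H B 0 (p + B.v) (l + 1)) +
      (ν : Measure (Config d (q + 3))).real (tl ⁻¹' Bin.H B 0 p (l + 2))) / 4 ≤
    (Phi B.N (ru B q) ν : Measure (Config d (q + 3))).real (tl ⁻¹' Bin.H B 0 p (l + 1)) +
      ∑ n ∈ range (l + 1),
        (Phi B.N (ru B q) ν : Measure (Config d (q + 3))).real (K B q (pv B p n) 0) := by
  have h1 := Bin.Phi_H B (ν.map measurable_tl.aemeasurable) p l
  simp only [ProbabilityMeasure.toMeasure_map,
    map_measureReal_apply measurable_tl (Bin.measurable_H _ _)] at h1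
  refine h1.trans ?_
  rw [Measure.real, ← Phi_pj ν (Bin.measurable_H _ _), ← Measure.real]
  have h2 : (pj ⁻¹' Bin.H B 0 p (l + 1) : Set (Config d (q + 3))) ⊆
      tl ⁻¹' Bin.H B 0 p (l + 1) ∪ ⋃ n ∈ range (l + 1), K B q (pv B p n) 0 := by
    intro y hy
    by_contra hn
    rw [Set.mem_union, not_or] at hn
    refine hn.1 fun n hl hL => hy n hl ⟨pr_eq_one.2 ?_, fun k => hL.2 (oc_eq_one.2 ?_)⟩
    · by_contra k
      exact hn.2 (Set.mem_biUnion (Finset.mem_range.2 hl) (mem_K_zero.2 ⟨oc_eq_one.1 hL.1, k⟩))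
    · rw [pr_eq_one.1 k]
      exact one_ne_zero
  refine (measureReal_mono h2 (measure_ne_top _ _)).trans ((measureReal_union_le _ _).trans ?_)
  gcongr
  exact measureReal_biUnion_finset_le _ _

theorem H_eventually (μ : ProbabilityMeasure (Config d (q + 3))) (s : ℕ) :
    ∀ (p : Fin d → ℤ) (l : ℕ) (ε : ℝ), 0 < ε → ∀ᶠ t in atTop, 1 - surv s l - ε ≤
      ((Phi B.N (ru B q))^[t] μ : Measure (Config d (q + 3))).real (tl ⁻¹' Bin.H B 0 p l) := by
  have hz : ∀ (s : ℕ) (p : Fin d → ℤ) (ε : ℝ), 0 < ε → ∀ᶠ t in atTop, 1 - surv s 0 - ε ≤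
      ((Phi B.N (ru B q))^[t] μ : Measure (Config d (q + 3))).real (tl ⁻¹' Bin.H B 0 p 0) := by
    intro s p ε hε
    refine Eventually.of_forall fun t => ?_
    have : (tl ⁻¹' Bin.H B 0 p 0 : Set (Config d (q + 3))) = Set.univ := by simp [Bin.H]
    rw [this, probReal_univ, surv_zero]
    linarith
  induction s with
  | zero =>
    intro p l ε hε
    cases l with
    | zero => exact hz 0 p ε hε
    | succ l =>
      refine Eventually.of_forall fun t => le_trans ?_ measureReal_nonneg
      simp only [surv]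
      linarith
  | succ s ih =>
    intro p l ε hε
    cases l with
    | zero => exact hz _ p ε hε
    | succ l =>
      have h1 := tendsto_finsetSum (range (l + 1)) fun n _ => K_tendsto (B := B) μ (pv B p n)
      rw [Finset.sum_const_zero] at h1
      have h2 := ((tendsto_add_atTop_iff_nat 1).2 h1).eventually (ge_mem_nhds (half_pos hε))
      rw [← map_add_atTop_eq_nat 1, eventually_map]
      filter_upwards [h2, ih (p + B.v) l _ (half_pos hε), ih p (l + 1) _ (half_pos hε),
        ih (p + B.v) (l + 1) _ (half_pos hε), ih p (l + 2) _ (half_pos hε)] with t k0 k1 k2 k3 k4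
      have h3 := H_step (B := B) ((Phi B.N (ru B q))^[t] μ) p l
      rw [Function.iterate_succ_apply'] at k0 ⊢
      rw [surv_succ]
      linarith

theorem occ_tendsto (μ : ProbabilityMeasure (Config d (q + 3))) (i : Fin d → ℤ) :
    Tendsto (fun t => ((Phi B.N (ru B q))^[t] μ : Measure (Config d (q + 3))).real {x | x i ≠ 0})
      atTop (𝓝 0) := by
  rw [← tendsto_add_atTop_iff_nat 1]
  refine tendsto_order.2 ⟨fun a ha => Eventually.of_forall fun t =>
    ha.trans_le measureReal_nonneg, fun ε hε => ?_⟩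
  have h3 : 0 < ε / 4 := by positivity
  obtain ⟨s, hs⟩ := (surv_two.eventually (ge_mem_nhds h3)).exists
  have h2 := ((tendsto_add_atTop_iff_nat 1).2 (K_tendsto (B := B) μ i)).eventually (ge_mem_nhds h3)
  filter_upwards [h2, H_eventually (B := B) μ s i 2 _ h3] with t k0 k1
  rw [Function.iterate_succ_apply'] at k0 ⊢
  have hm : MeasurableSet (tl ⁻¹' Bin.H B 0 i 2 : Set (Config d (q + 3))) :=
    measurable_tl (Bin.measurable_H _ _)
  have h4 := up_bound (B := B) ((Phi B.N (ru B q))^[t] μ) (C := {y | y i = 1})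
    (by measurability) hm.compl fun x => by
      filter_upwards [ae_st (B := B) x] with y hy h hx
      rcases (hy i).2.2.2 h with k | k
      · exact hx 0 (by omega) (by rw [pv_zero]; exact k)
      · exact hx 1 (by omega) (by rw [pv_succ, pv_zero]; exact k)
  have h5 := ENNReal.toReal_mono (measure_ne_top _ _) h4
  rw [← Measure.real, ← Measure.real, probReal_compl_eq_one_sub hm] at h5
  have h6 : {x : Config d (q + 3) | x i ≠ 0} ⊆ K B q i 0 ∪ {y | y i = 1} := by
    intro y hy
    by_cases k : y i = 1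
    · exact Or.inr k
    · exact Or.inl (mem_K_zero.2 ⟨hy, k⟩)
  refine ((measureReal_mono h6 (measure_ne_top _ _)).trans
    (measureReal_union_le _ _)).trans_lt ?_
  linarith

/-- the point mass at a configuration -/
noncomputable def pd (x : Config d (q + 3)) : ProbabilityMeasure (Config d (q + 3)) :=
  ⟨Measure.dirac x, inferInstance⟩

theorem conv (B : Nb d) (μ : ProbabilityMeasure (Config d (q + 3))) :
    Tendsto (fun t : ℕ => (Phi B.N (ru B q))^[t] μ) atTop (𝓝 (pd fun _ => 0)) := by
  let S : Set (Set (Config d (q + 3))) := {C | MeasurableSet C ∧ ∃ D : Finset (Fin d → ℤ),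
    ∀ x y : Config d (q + 3), (∀ i ∈ D, x i = y i) → x ∈ C → y ∈ C}
  have hS : IsPiSystem S := by
    rintro C ⟨hC, D, hD⟩ C' ⟨hC', D', hD'⟩ -
    refine ⟨hC.inter hC', D ∪ D', fun x y hxy hx => ⟨?_, ?_⟩⟩
    · exact hD x y (fun i hi => hxy i (Finset.mem_union_left _ hi)) hx.1
    · exact hD' x y (fun i hi => hxy i (Finset.mem_union_right _ hi)) hx.2
  refine hS.tendsto_probabilityMeasure_of_tendsto_of_mem (fun s hs => hs.1) ?_ ?_
  · intro u hu x hx
    obtain ⟨I, v, h1, h2⟩ := isOpen_pi_iff.1 hu x hx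
    refine ⟨(I : Set (Fin d → ℤ)).pi v, ⟨?_, I, ?_⟩, ?_, h2⟩
    · exact MeasurableSet.pi I.countable_toSet (fun _ _ => MeasurableSet.of_discrete)
    · intro x y hxy hx i hi
      rw [← hxy i hi]
      exact hx i hi
    · exact (isOpen_set_pi I.finite_toSet (fun a ha => (h1 a ha).1)).mem_nhds
        (fun a ha => (h1 a ha).2)
  · rintro C ⟨hC, D, hD⟩
    rw [← NNReal.tendsto_coe, tendsto_iff_dist_tendsto_zero]
    have h1 := tendsto_finsetSum D fun i _ => occ_tendsto (B := B) μ i
    rw [Finset.sum_const_zero] at h1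
    refine squeeze_zero (fun _ => dist_nonneg) (fun t => ?_) h1
    rw [Real.dist_eq, ← ProbabilityMeasure.measureReal_eq_coe_coeFn,
      ← ProbabilityMeasure.measureReal_eq_coe_coeFn]
    exact Bin.local_dev (q := q + 1) _ C hC D hD

theorem inv : Phi B.N (ru B q) (pd fun _ => 0) = pd fun _ => 0 := by
  apply Subtype.ext
  show (Measure.dirac (fun _ => 0 : Config d (q + 3))).bind (step B.N (ru B q)) =
    Measure.dirac _
  rw [Measure.dirac_bind (measurable_step _ _), step_eq']
  have : (fun i : Fin d → ℤ => (kq B (fun _ => 0 : Config d (q + 3)) i).toMeasure) =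
      fun i : Fin d → ℤ => Measure.dirac ((fun _ => 0 : Config d (q + 3)) i) := by
    funext i
    rw [kq_eq, if_neg (fun h => sg_ne_zero h.1.symm), kp_eq,
      if_neg (fun h => oc_eq_one.1 h.1 rfl), if_neg (fun h => oc_eq_one.1 h.1 rfl), PMF.pure_map,
      PMF.toMeasure_pure, up, if_neg zero_ne_one]
  rw [this]
  exact Measure.infinitePi_dirac _

theorem ergodic (B : Nb d) : ErgodicTo (Phi B.N (ru B q)) (pd fun _ => 0) := by
  refine ⟨inv, fun ν hν => ?_, conv B⟩
  have h := conv B ν
  simp only [Function.iterate_fixed hν] at h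
  exact tendsto_nhds_unique tendsto_const_nhds h

/-- a signal at distance `k` before the origin and only empty sites in front of it -/
def M (B : Nb d) (q : ℕ) (k : ℕ) : Set (Config d (q + 3)) :=
  {x | x (-(k : ℤ) • B.v) = sg q ∧ ∀ n : ℤ, -(k : ℤ) < n → x (n • B.v) = 0}

theorem measurable_M (k : ℕ) : MeasurableSet (M B q k) := by
  unfold M
  measurability

theorem M_step (k : ℕ) (x : Config d (q + 3)) :
    ∀ᵐ y ∂step B.N (ru B q) x, x ∈ M B q (k + 1) → y ∈ M B q k := by
  have e1 : ∀ n : ℤ, n • B.v + B.v = (n + 1) • B.v := fun n => by rw [add_smul, one_smul]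
  have e2 : ∀ n : ℤ, n • B.v - B.v = (n - 1) • B.v := fun n => by rw [sub_smul, one_smul]
  filter_upwards [ae_st (B := B) x] with y hy hx
  refine ⟨(hy _).1 ⟨?_, hx.2 _ (by omega), ?_⟩, fun n hn => ?_⟩
  · rw [e2, show -(k : ℤ) - 1 = -((k + 1 : ℕ) : ℤ) by omega]
    exact hx.1
  · rw [e1]
    exact hx.2 _ (by omega)
  · have h1 : ¬ Sg B x (n • B.v) := fun h => by
      have h2 := h.1
      rw [e2, hx.2 _ (by omega)] at h2
      exact sg_ne_zero h2.symm
    refine ((hy _).2.1 h1).resolve_right fun h => ?_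
    rcases (hy _).2.2.2 h with h2 | h2
    · exact oc_eq_one.1 h2.1 (hx.2 _ (by omega))
    · rw [e1] at h2
      exact oc_eq_one.1 h2.1 (hx.2 _ (by omega))

theorem M_iter (μ : ProbabilityMeasure (Config d (q + 3))) (t : ℕ) : ∀ k,
    (μ : Measure (Config d (q + 3))) (M B q (k + t)) ≤
      ((Phi B.N (ru B q))^[t] μ : Measure (Config d (q + 3))) (M B q k) := by
  induction t with
  | zero => exact fun k => le_rfl
  | succ t ih =>
    intro k
    rw [Function.iterate_succ_apply', show k + (t + 1) = k + 1 + t by omega]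
    exact (ih _).trans (low_bound _ (measurable_M k) (measurable_M (k + 1)) (M_step k))

theorem dev_bounds (μ : ProbabilityMeasure (Config d (q + 3))) (t : ℕ) :
    (μ : Measure (Config d (q + 3))).real (M B q t) ≤
      dev (Phi B.N (ru B q)) (pd fun _ => 0) μ t {0} (fun _ => 0) ∧
    dev (Phi B.N (ru B q)) (pd fun _ => 0) μ t {0} (fun _ => 0) ≤ 1 := by
  have h0 := M_iter (B := B) μ t 0
  rw [zero_add] at h0
  have h1 := ENNReal.toReal_mono (measure_ne_top _ _) h0
  rw [← Measure.real, ← Measure.real] at h1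
  have hm := measurable_cyl (q := q + 3) ({0} : Finset (Fin d → ℤ)) fun _ => 0
  have h2 : M B q 0 ⊆ (cyl ({0} : Finset (Fin d → ℤ)) fun _ => (0 : Fin (q + 3)))ᶜ := by
    intro x hx hy
    have h3 := hx.1
    rw [Nat.cast_zero, neg_zero, zero_smul] at h3
    exact sg_ne_zero (h3.symm.trans (hy ⟨0, by simp⟩))
  have h3 := h1.trans (measureReal_mono h2 (measure_ne_top _ _))
  rw [probReal_compl_eq_one_sub hm] at h3
  have h4 : ((pd fun _ => 0 : ProbabilityMeasure (Config d (q + 3))) :
      Measure (Config d (q + 3))).real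
      (cyl ({0} : Finset (Fin d → ℤ)) fun _ => (0 : Fin (q + 3))) = 1 := by
    change (Measure.dirac _).real _ = 1
    have h5 : (fun _ => 0 : Config d (q + 3)) ∈
        cyl ({0} : Finset (Fin d → ℤ)) fun _ => (0 : Fin (q + 3)) := fun _ => rfl
    rw [Measure.real, Measure.dirac_apply' _ hm, Set.indicator_of_mem h5]
    simp
  unfold dev
  rw [← ProbabilityMeasure.measureReal_eq_coe_coeFn, ← ProbabilityMeasure.measureReal_eq_coe_coeFn,
    h4, abs_sub_comm, abs_of_nonneg (sub_nonneg.2 measureReal_le_one)]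
  exact ⟨h3, sub_le_self _ measureReal_nonneg⟩

/-- one signal at distance `k` before the origin -/
noncomputable def one (B : Nb d) (q : ℕ) (k : ℕ) : Config d (q + 3) :=
  fun s => if s = -(k : ℤ) • B.v then sg q else 0

theorem one_mem (k : ℕ) : one B q k ∈ M B q k := by
  refine ⟨if_pos rfl, fun n hn => if_neg fun h => ?_⟩
  have := e_ne B 0 n (-(k : ℤ)) (by rwa [zero_add, zero_add])
  omega

theorem dev_one (B : Nb d) (t : ℕ) :
    dev (Phi B.N (ru B q)) (pd fun _ => 0) (pd (one B q t)) t {0} (fun _ => 0) = 1 := by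
  refine le_antisymm (dev_bounds _ t).2 (le_trans ?_ (dev_bounds _ t).1)
  change 1 ≤ (Measure.dirac _).real _
  rw [Measure.real, Measure.dirac_apply' _ (measurable_M t), Set.indicator_of_mem (one_mem t)]
  simp

theorem no_rate (B : Nb d) (g : ℕ → ℝ) (hg : Tendsto g atTop (𝓝 0)) :
    ∃ μ : ProbabilityMeasure (Config d (q + 3)), ∃ᶠ t in atTop,
      g t ≤ dev (Phi B.N (ru B q)) (pd fun _ => 0) μ t {0} (fun _ => 0) := by
  obtain ⟨w, c, hc, -, hv⟩ := exists_pmf
  have h1 : ∀ j : ℕ, ∃ t, j ≤ t ∧ g t ≤ (w j).toReal := fun j => by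
    have h2 : 0 < (w j).toReal := by
      rw [hv]
      positivity
    exact ((eventually_ge_atTop j).and (hg.eventually (ge_mem_nhds h2))).exists
  choose τ h2 h3 using h1
  have hcf : Measurable fun j => one B q (τ j) := Measurable.of_discrete
  refine ⟨⟨w.toMeasure.map fun j => one B q (τ j),
    Measure.isProbabilityMeasure_map hcf.aemeasurable⟩, frequently_atTop.2 fun j =>
      ⟨τ j, h2 j, (h3 j).trans (le_trans ?_ (dev_bounds _ _).1)⟩⟩
  refine ENNReal.toReal_mono (measure_ne_top _ _) ?_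
  change w j ≤ w.toMeasure.map _ _
  rw [Measure.map_apply hcf (measurable_M _),
    ← PMF.toMeasure_apply_singleton w j MeasurableSet.of_discrete]
  exact measure_mono (Set.singleton_subset_iff.2 (one_mem _))

theorem not_unif (B : Nb d) : ¬ UniformlyErgodic (Phi B.N (ru B q)) (pd fun _ => 0) := by
  intro h
  obtain ⟨T, hT⟩ := h {0} (fun _ => 0) (1 / 2) (by norm_num)
  have := hT T le_rfl (pd (one B q T))
  rw [dev_one] at this
  norm_num at this

theorem not_weakExp (B : Nb d) : ¬ WeakExpConv (Phi B.N (ru B q)) (pd fun _ => 0) := by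
  intro h
  obtain ⟨μ, hμ⟩ := no_rate (q := q) B (fun t => 1 / ((t : ℝ) + 1))
    tendsto_one_div_add_atTop_nhds_zero_nat
  obtain ⟨C, γ, hγ, hC⟩ := h {0} (fun _ => 0) μ
  have hn : ∀ t, 0 ≤ C * γ ^ t := fun t => (abs_nonneg _).trans (hC t)
  have hf := hμ.mono fun t ht => ht.trans (hC t)
  have hC0 : 0 < C := by
    refine lt_of_le_of_ne (by simpa using hn 0) ?_
    rintro rfl
    obtain ⟨t, ht⟩ := hf.exists
    rw [zero_mul] at ht
    exact absurd ht (not_le.2 (by positivity))
  have hγ0 : 0 ≤ γ := by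
    have := hn 1
    rw [pow_one] at this
    exact nonneg_of_mul_nonneg_right this hC0
  have h1 := ((tendsto_self_mul_const_pow_of_lt_one hγ0 hγ).add
    (tendsto_pow_atTop_nhds_zero_of_lt_one hγ0 hγ)).const_mul C
  rw [add_zero, mul_zero] at h1
  obtain ⟨t, k1, k2⟩ := (hf.and_eventually (h1.eventually (gt_mem_nhds one_pos))).exists
  rw [div_le_iff₀ (by positivity)] at k1
  linarith

theorem not_exp' (B : Nb d) : ¬ ExpConv (Phi B.N (ru B q)) (pd fun _ => 0) := fun h =>
  not_weakExp B fun D w μ => (h D w).imp fun _ => Exists.imp fun _ k => ⟨k.1, fun t => k.2 t μ⟩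

end Pool.Agent.Lib.MP_37af32_pr.NU
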